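import Pool.Agent.Cdeb98.Torus

set_option autoImplicit false

/-!
The dihedral argument: two tori `T`, `T'` such that centralizers of nontrivial elements of `T`
(of `T'`) only contain tori lying in `T` (in `T'`), with no nontrivial element of `T` conjugate
to an element of `T'`, cannot have finitely many double cosets `T s T'` covering the group.
-/

namespace Pool.Agent.Cdeb98

open Subgroup

universe u v

variable {G : Type u} [Group G]

/-- every torus centralizing a nontrivial element of `T` lies in `T` -/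
def Cl (T : Subgroup G) : Prop :=
  ∀ e ∈ T, e ≠ 1 → ∀ P : Subgroup G, IsTorus P → (∀ p ∈ P, p * e = e * p) → P ≤ T

/-- no nontrivial element of `T` is conjugate to an element of `T'` -/
def Sep (T T' : Subgroup G) : Prop := ∀ t ∈ T, ∀ t' ∈ T', IsConj t t' → t = 1

/-- the group is a finite union of double cosets `D s E` -/
def FD (D E : Subgroup G) : Prop :=
  ∃ S : Set G, S.Finite ∧ ∀ g : G, ∃ s ∈ S, ∃ d ∈ D, ∃ e ∈ E, g = d * s * e

theorem Cl.conj {T : Subgroup G} (h : Cl T) (g : G) : Cl (conjS g T) := by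
  intro e he hne P hP hc x hx
  rw [mem_conjS] at he ⊢
  have hne' : g⁻¹ * e * g ≠ 1 := by
    intro h1
    apply hne
    have : e = g * (g⁻¹ * e * g) * g⁻¹ := by group
    rw [this, h1]; group
  refine h (g⁻¹ * e * g) he hne' (conjS g⁻¹ P) (hP.conj _) ?_ ?_
  · intro p hp
    rw [mem_conjS] at hp
    have := hc _ hp
    simp only [inv_inv] at this
    calc p * (g⁻¹ * e * g) = g⁻¹ * ((g * p * g⁻¹) * e) * g := by group
      _ = g⁻¹ * (e * (g * p * g⁻¹)) * g := by rw [this]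
      _ = g⁻¹ * e * g * p := by group
  · rw [mem_conjS]
    have : g⁻¹⁻¹ * (g⁻¹ * x * g) * g⁻¹ = x := by group
    rw [this]; exact hx

theorem Sep.symm {T T' : Subgroup G} (h : Sep T T') : Sep T' T := by
  intro t' ht' t ht hc
  have h1 := h t ht t' ht' hc.symm
  subst h1
  rw [isConj_one_left] at hc
  exact hc

theorem Sep.conj_left {T T' : Subgroup G} (h : Sep T T') (g : G) : Sep (conjS g T) T' := by
  intro t ht t' ht' hc
  rw [mem_conjS] at ht
  have h1 : IsConj (g⁻¹ * t * g) t' := by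
    refine IsConj.trans ?_ hc
    rw [isConj_iff]
    exact ⟨g, by group⟩
  have h2 := h _ ht t' ht' h1
  have : t = g * (g⁻¹ * t * g) * g⁻¹ := by group
  rw [this, h2]; group

theorem Sep.conj_right {T T' : Subgroup G} (h : Sep T T') (g : G) : Sep T (conjS g T') :=
  (h.symm.conj_left g).symm

/-- an element commuting with a nontrivial element of `T` normalizes `T` -/
theorem Cl.normalizes {T : Subgroup G} (h : Cl T) (hT : IsTorus T) {e c : G} (he : e ∈ T)
    (hne : e ≠ 1) (hc : c * e = e * c) : ∀ t ∈ T, c * t * c⁻¹ ∈ T := by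
  intro t ht
  refine h e he hne (conjS c T) (hT.conj c) ?_ (conj_mem_conjS ht)
  intro p hp
  rw [mem_conjS] at hp
  have h1 := hT.comm _ hp e he
  have h2 : c⁻¹ * e * c = e := by
    rw [mul_assoc, ← hc]; group
  calc p * e = c * ((c⁻¹ * p * c) * (c⁻¹ * e * c)) * c⁻¹ := by group
    _ = c * ((c⁻¹ * p * c) * e) * c⁻¹ := by rw [h2]
    _ = c * (e * (c⁻¹ * p * c)) * c⁻¹ := by rw [h1]
    _ = c * ((c⁻¹ * e * c) * (c⁻¹ * p * c)) * c⁻¹ := by rw [h2]
    _ = e * p := by group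

/-- an involution normalizing a torus and centralizing no nontrivial subtorus inverts it -/
theorem inverts_of_trivial {T : Subgroup G} (hT : IsTorus T) {z : G} (hz : z * z = 1)
    (hn : ∀ t ∈ T, z * t * z⁻¹ ∈ T)
    (hP : ∀ P : Subgroup G, IsTorus P → P ≤ T → (∀ p ∈ P, p * z = z * p) → ∀ p ∈ P, p = 1) :
    ∀ t ∈ T, z * t * z⁻¹ = t⁻¹ := by
  have hzi : z⁻¹ = z := inv_eq_of_mul_eq_one_left hz
  let f : T →* G :=
    { toFun := fun t => (t : G) * (z * t * z⁻¹)
      map_one' := by simp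
      map_mul' := by
        rintro ⟨a, ha⟩ ⟨b, hb⟩
        simp only [MulMemClass.mk_mul_mk]
        have h1 := hT.comm b hb _ (hn a ha)
        calc a * b * (z * (a * b) * z⁻¹) = a * (b * (z * a * z⁻¹)) * (z * b * z⁻¹) := by group
          _ = a * ((z * a * z⁻¹) * b) * (z * b * z⁻¹) := by rw [h1]
          _ = a * (z * a * z⁻¹) * (b * (z * b * z⁻¹)) := by group }
  have h1 := hP f.range (hT.range f) (by
    rintro _ ⟨⟨t, ht⟩, rfl⟩
    exact T.mul_mem ht (hn t ht)) (by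
    rintro _ ⟨⟨t, ht⟩, rfl⟩
    change t * (z * t * z⁻¹) * z = z * (t * (z * t * z⁻¹))
    have h1 := hT.comm t ht _ (hn t ht)
    calc t * (z * t * z⁻¹) * z = (z * t * z⁻¹) * t * z := by rw [h1]
      _ = z * t * (z⁻¹ * t * z) := by group
      _ = z * t * (z * t * z⁻¹) := by
        rw [show z⁻¹ * t * z = z * t * z⁻¹ by rw [hzi]]
      _ = z * (t * (z * t * z⁻¹)) := by group)
  intro t ht
  have h2 := h1 (t * (z * t * z⁻¹)) ⟨⟨t, ht⟩, rfl⟩
  exact (inv_eq_of_mul_eq_one_right h2).symm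

/-- an element inverting a torus is conjugate to its translates -/
theorem isConj_of_inverts {T : Subgroup G} (hT : IsTorus T) {z : G}
    (hz : ∀ t ∈ T, z * t * z⁻¹ = t⁻¹) {i : G} (hi : i ∈ T) : IsConj z (i * z) := by
  obtain ⟨c, hc, hci⟩ := hT.div 2 (by norm_num) i hi
  rw [isConj_iff]
  refine ⟨c, ?_⟩
  have h1 := hz c⁻¹ (T.inv_mem hc)
  rw [inv_inv] at h1
  calc c * z * c⁻¹ = c * (z * c⁻¹ * z⁻¹) * z := by group
    _ = c * c * z := by rw [h1]
    _ = i * z := by rw [← hci, pow_two]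

/-- involutions of `T` and of `T'` never commute -/
theorem not_commute {T T' : Subgroup G} (hT : IsTorus T) (hT' : IsTorus T') (hc : Cl T)
    (hc' : Cl T') (hs : Sep T T') {i j : G} (hi : i ∈ T) (hj : j ∈ T') (hi1 : i ≠ 1)
    (hj1 : j ≠ 1) (hi2 : i * i = 1) (hj2 : j * j = 1) (hij : i * j = j * i) : False := by
  have inv1 : ∀ t ∈ T, j * t * j⁻¹ = t⁻¹ := by
    refine inverts_of_trivial hT hj2 (hc.normalizes hT hi hi1 hij.symm) ?_
    intro P hP hPT hPj p hp
    have h1 : p ∈ T' := hc' j hj hj1 P hP hPj hp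
    exact hs p (hPT hp) p h1 (IsConj.refl p)
  have inv2 : ∀ t ∈ T', i * t * i⁻¹ = t⁻¹ := by
    refine inverts_of_trivial hT' hi2 (hc'.normalizes hT' hj hj1 hij) ?_
    intro P hP hPT hPi p hp
    have h1 : p ∈ T := hc i hi hi1 P hP hPi hp
    exact hs p h1 p (hPT hp) (IsConj.refl p)
  have h1 : IsConj j (i * j) := isConj_of_inverts hT inv1 hi
  have h2 : IsConj i (j * i) := isConj_of_inverts hT' inv2 hj
  rw [← hij] at h2
  exact hi1 (hs i hi j hj (h2.trans h1.symm))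

theorem key {T T' : Subgroup G} (hT : IsTorus T) (hT' : IsTorus T') (hc : Cl T)
    (hc' : Cl T') (hs : Sep T T') {i j z s : G} (hi : i ∈ T) (hj : j ∈ T') (hi1 : i ≠ 1)
    (hj1 : j ≠ 1) (hj2 : j * j = 1) (hz1 : z ≠ 1) (hz2 : z * z = 1)
    (hzi : z * i = i * z) (hzj : z * j = j * z) (hsz : s * i * s⁻¹ = z * i) : IsConj i z := by
  have inv1 : ∀ t ∈ T, z * t * z⁻¹ = t⁻¹ := by
    refine inverts_of_trivial hT hz2 (hc.normalizes hT hi hi1 hzi) ?_
    intro P hP hPT hPz p hp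
    by_contra hp1
    have hmem : z * i ∈ conjS s T := by
      rw [← hsz]; exact conj_mem_conjS hi
    have hne : z * i ≠ 1 := by
      rw [← hsz]
      intro h
      apply hi1
      have : i = s⁻¹ * (s * i * s⁻¹) * s := by group
      rw [this, h]; group
    have h1 : P ≤ conjS s T := by
      refine (hc.conj s) (z * i) hmem hne P hP ?_
      intro q hq
      have h3 := hPz q hq
      have h4 := hT.comm q (hPT hq) i hi
      calc q * (z * i) = (q * z) * i := by group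
        _ = z * q * i := by rw [h3]
        _ = z * (q * i) := by group
        _ = z * (i * q) := by rw [h4]
        _ = z * i * q := by group
    have h2 : T ≤ conjS s T := by
      refine (hc.conj s) p (h1 hp) hp1 T hT ?_
      intro t ht
      exact hT.comm t ht p (hPT hp)
    have h3 : z ∈ conjS s T := by
      have h4 := (conjS s T).mul_mem hmem ((conjS s T).inv_mem (h2 hi))
      have h5 : z * i * i⁻¹ = z := by group
      rwa [h5] at h4
    exact not_commute (hT.conj s) hT' (hc.conj s) hc' (hs.conj_left s) h3 hj hz1 hj1 hz2 hj2 hzj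
  have h1 : IsConj z (i * z) := isConj_of_inverts hT inv1 hi
  have h2 : IsConj i (z * i) := by
    rw [isConj_iff]; exact ⟨s, hsz⟩
  rw [← hzi] at h1
  exact h2.trans h1.symm

/-- the product of an involution of `T` and one of `T'` is not of 2-power order -/
theorem no_two_power {T T' : Subgroup G} (hT : IsTorus T) (hT' : IsTorus T') (hc : Cl T)
    (hc' : Cl T') (hs : Sep T T') {i j : G} (hi : i ∈ T) (hj : j ∈ T') (hi1 : i ≠ 1)
    (hj1 : j ≠ 1) (hi2 : i * i = 1) (hj2 : j * j = 1) (a : ℕ) (ha : (i * j) ^ (2 ^ a) = 1) :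
    False := by
  classical
  have hex : ∃ a : ℕ, (i * j) ^ (2 ^ a) = 1 := ⟨a, ha⟩
  obtain ⟨a, ha, hmin⟩ : ∃ a : ℕ, (i * j) ^ (2 ^ a) = 1 ∧ ∀ b < a, (i * j) ^ (2 ^ b) ≠ 1 :=
    ⟨Nat.find hex, Nat.find_spec hex, fun b hb => Nat.find_min hex hb⟩
  have hii : i⁻¹ = i := inv_eq_of_mul_eq_one_left hi2
  have hjj : j⁻¹ = j := inv_eq_of_mul_eq_one_left hj2
  have hri : i * (i * j) * i⁻¹ = (i * j)⁻¹ := by
    rw [mul_inv_rev, hii, hjj, ← mul_assoc, hi2, one_mul]
  have hrj : j * (i * j) * j⁻¹ = (i * j)⁻¹ := by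
    rw [mul_inv_rev, hii, hjj, mul_assoc, mul_assoc, hj2, mul_one]
  rcases a with _ | _ | a
  · have h1 : i * j = 1 := by simpa using ha
    have h2 : i = j := by rw [← hjj]; exact eq_inv_of_mul_eq_one_left h1
    exact hi1 (hs i hi j hj (by rw [h2]))
  · have h1 : (i * j) * (i * j) = 1 := by
      simpa [pow_two] using ha
    have h2 : i * j = j * i := by
      have h3 : i * j = (i * j)⁻¹ := eq_inv_of_mul_eq_one_left h1
      rw [h3, mul_inv_rev, hii, hjj]
    exact not_commute hT hT' hc hc' hs hi hj hi1 hj1 hi2 hj2 h2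
  · set r : G := i * j with hr
    set s : G := r ^ (2 ^ a) with hsdef
    set z : G := r ^ (2 ^ (a + 1)) with hzdef
    have hss : s * s = z := by
      rw [hsdef, hzdef, ← pow_add]
      congr 1
      rw [pow_succ]; ring
    have hz2 : z * z = 1 := by
      rw [hzdef, ← pow_add]
      rw [show 2 ^ (a + 1) + 2 ^ (a + 1) = 2 ^ (a + 1 + 1) by rw [pow_succ 2 (a + 1)]; ring]
      exact ha
    have hz1 : z ≠ 1 := hmin (a + 1) (by omega)
    have hzinv : z⁻¹ = z := inv_eq_of_mul_eq_one_left hz2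
    have hcs : ∀ x : G, x * r * x⁻¹ = r⁻¹ → s * x * s⁻¹ = z * x ∧ z * x = x * z := by
      intro x hx
      have h1 : ∀ n : ℕ, x * r ^ n * x⁻¹ = (r ^ n)⁻¹ := by
        intro n
        rw [← conj_pow, hx, inv_pow]
      have h2 : x * s * x⁻¹ = s⁻¹ := h1 _
      have h3 : x * z * x⁻¹ = z⁻¹ := h1 _
      constructor
      · have h4 : x * s⁻¹ = s * x := by
          have h5 : (x * s * x⁻¹)⁻¹ = s := by rw [h2, inv_inv]
          calc x * s⁻¹ = (x * s * x⁻¹)⁻¹ * x := by group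
            _ = s * x := by rw [h5]
        calc s * x * s⁻¹ = s * (x * s⁻¹) := by group
          _ = s * (s * x) := by rw [h4]
          _ = (s * s) * x := by group
          _ = z * x := by rw [hss]
      · calc z * x = z⁻¹ * x := by rw [hzinv]
          _ = x * z * x⁻¹ * x := by rw [h3]
          _ = x * z := by group
    obtain ⟨h1, h2⟩ := hcs i hri
    obtain ⟨h3, h4⟩ := hcs j hrj
    have k1 : IsConj i z := key hT hT' hc hc' hs hi hj hi1 hj1 hj2 hz1 hz2 h2 h4 h1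
    have k2 : IsConj j z := key hT' hT hc' hc hs.symm hj hi hj1 hi1 hi2 hz1 hz2 h4 h2 h3
    exact hi1 (hs i hi j hj (k1.trans k2.symm))

/-- iterating a conjugation relation between powers -/
theorem pow_pow_eq {g r : G} {a b : ℕ} (h : g * r ^ a * g⁻¹ = r ^ b) {M : ℕ} (hM : g ^ M = 1) :
    r ^ (a ^ M) = r ^ (b ^ M) := by
  have h1 : ∀ n : ℕ, g ^ n * r ^ (a ^ n) * (g ^ n)⁻¹ = r ^ (b ^ n) := by
    intro n
    induction n with
    | zero => simp
    | succ n ih =>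
      calc g ^ (n + 1) * r ^ (a ^ (n + 1)) * (g ^ (n + 1))⁻¹
          = g ^ n * (g * (r ^ a) ^ (a ^ n) * g⁻¹) * (g ^ n)⁻¹ := by
            rw [← pow_mul, ← pow_succ', pow_succ g n]; group
        _ = g ^ n * (r ^ b) ^ (a ^ n) * (g ^ n)⁻¹ := by rw [← conj_pow, h]
        _ = (g ^ n * r ^ (a ^ n) * (g ^ n)⁻¹) ^ b := by
            rw [conj_pow, ← pow_mul, ← pow_mul, mul_comm b]
        _ = (r ^ (b ^ n)) ^ b := by rw [ih]
        _ = r ^ (b ^ (n + 1)) := by rw [← pow_mul, ← pow_succ]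
  have h2 := h1 M
  rw [hM] at h2
  simpa using h2

/-- the product of two involutions from `T` and `T'` has finite order -/
theorem finite_order {T T' : Subgroup G} (hT : IsTorus T) (hT' : IsTorus T') (hfd : FD T T')
    {i j : G} (hi : i ∈ T) (hj : j ∈ T') (hi2 : i * i = 1) (hj2 : j * j = 1) :
    ∃ n : ℕ, 0 < n ∧ (i * j) ^ n = 1 := by
  classical
  obtain ⟨S, hS, hcov⟩ := hfd
  set r : G := i * j with hr
  have hii : i⁻¹ = i := inv_eq_of_mul_eq_one_left hi2
  have hjj : j⁻¹ = j := inv_eq_of_mul_eq_one_left hj2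
  have hri : i * r * i⁻¹ = r⁻¹ := by
    rw [hr, mul_inv_rev, hii, hjj, ← mul_assoc, hi2, one_mul]
  choose σ hσ t ht t' ht' heq using fun k : ℕ => hcov (r ^ (k + 1))
  have : Finite S := hS
  obtain ⟨k, l, hkl, hskl⟩ :=
    Finite.exists_ne_map_eq_of_infinite (fun k : ℕ => (⟨σ k, hσ k⟩ : S))
  have hs' : σ k = σ l := congrArg Subtype.val hskl
  -- `g` conjugates `r^(k+1) j r^(-(k+1))` to `r^(l+1) j r^(-(l+1))` and commutes with `i`
  set g : G := t l * (t k)⁻¹ with hg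
  have hgT : g ∈ T := T.mul_mem (ht l) (T.inv_mem (ht k))
  have hji : ∀ k : ℕ, r ^ (k + 1) * j * (r ^ (k + 1))⁻¹ = t k * (σ k * j * (σ k)⁻¹) * (t k)⁻¹ := by
    intro k
    rw [heq k]
    have h1 := hT'.comm _ (ht' k) j hj
    calc t k * σ k * t' k * j * (t k * σ k * t' k)⁻¹
        = t k * σ k * (t' k * j) * (t' k)⁻¹ * (σ k)⁻¹ * (t k)⁻¹ := by group
      _ = t k * σ k * (j * t' k) * (t' k)⁻¹ * (σ k)⁻¹ * (t k)⁻¹ := by rw [h1]
      _ = t k * (σ k * j * (σ k)⁻¹) * (t k)⁻¹ := by group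
  have hgj : g * (r ^ (k + 1) * j * (r ^ (k + 1))⁻¹) * g⁻¹ =
      r ^ (l + 1) * j * (r ^ (l + 1))⁻¹ := by
    rw [hji k, hji l, hs', hg]; group
  have hgi : g * i * g⁻¹ = i := by
    rw [hT.comm g hgT i hi]; group
  have hprod : ∀ k : ℕ, i * (r ^ (k + 1) * j * (r ^ (k + 1))⁻¹) = (r ^ (2 * k + 1))⁻¹ := by
    intro k
    have h1 : i * r ^ (k + 1) * i⁻¹ = (r ^ (k + 1))⁻¹ := by
      rw [← conj_pow, hri, inv_pow]
    calc i * (r ^ (k + 1) * j * (r ^ (k + 1))⁻¹)
        = (i * r ^ (k + 1) * i⁻¹) * (i * j) * (r ^ (k + 1))⁻¹ := by group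
      _ = (r ^ (k + 1))⁻¹ * r * (r ^ (k + 1))⁻¹ := by rw [h1]
      _ = (r ^ (2 * k + 1))⁻¹ := by
        rw [show 2 * k + 1 = k + (k + 1) by ring, pow_add, pow_succ]
        group
  have hgr : g * r ^ (2 * k + 1) * g⁻¹ = r ^ (2 * l + 1) := by
    have h1 : g * (i * (r ^ (k + 1) * j * (r ^ (k + 1))⁻¹)) * g⁻¹ =
        i * (r ^ (l + 1) * j * (r ^ (l + 1))⁻¹) := by
      calc g * (i * (r ^ (k + 1) * j * (r ^ (k + 1))⁻¹)) * g⁻¹
          = (g * i * g⁻¹) * (g * (r ^ (k + 1) * j * (r ^ (k + 1))⁻¹) * g⁻¹) := by group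
        _ = _ := by rw [hgi, hgj]
    rw [hprod, hprod] at h1
    have h2 := congrArg (fun x => x⁻¹) h1
    simp only [inv_inv] at h2
    rw [← h2]; group
  obtain ⟨m, hm⟩ := hT.tors g hgT
  have hpp := pow_pow_eq hgr hm
  have hne : (2 * k + 1) ^ (2 ^ m) ≠ (2 * l + 1) ^ (2 ^ m) := by
    intro h
    have h2m : 2 ^ m ≠ 0 := by positivity
    have := Nat.pow_left_injective h2m h
    apply hkl
    simpa using this
  rcases lt_or_gt_of_ne hne with h | h
  · refine ⟨(2 * l + 1) ^ (2 ^ m) - (2 * k + 1) ^ (2 ^ m), by omega, ?_⟩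
    have h1 : r ^ ((2 * l + 1) ^ (2 ^ m) - (2 * k + 1) ^ (2 ^ m)) * r ^ ((2 * k + 1) ^ (2 ^ m)) =
        r ^ ((2 * k + 1) ^ (2 ^ m)) := by
      rw [← pow_add, Nat.sub_add_cancel h.le, hpp]
    exact mul_eq_right.1 h1
  · refine ⟨(2 * k + 1) ^ (2 ^ m) - (2 * l + 1) ^ (2 ^ m), by omega, ?_⟩
    have h1 : r ^ ((2 * k + 1) ^ (2 ^ m) - (2 * l + 1) ^ (2 ^ m)) * r ^ ((2 * l + 1) ^ (2 ^ m)) =
        r ^ ((2 * l + 1) ^ (2 ^ m)) := by
      rw [← pow_add, Nat.sub_add_cancel h.le, hpp]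
    exact mul_eq_right.1 h1

/-- a nontrivial torus contains an involution -/
theorem exists_involution {T : Subgroup G} (hT : IsTorus T) (hne : T ≠ ⊥) :
    ∃ i ∈ T, i ≠ 1 ∧ i * i = 1 := by
  classical
  obtain ⟨x, hx⟩ := (Subgroup.ne_bot_iff_exists_ne_one.1 hne)
  · obtain ⟨x, hx0⟩ := x
    have hx1 : x ≠ 1 := fun h => hx (Subtype.ext h)
    have hex := hT.tors x hx0
    have hpos : Nat.find hex ≠ 0 := by
      intro h0
      have := Nat.find_spec hex
      rw [h0] at this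
      exact hx1 (by simpa using this)
    obtain ⟨m, hm⟩ := Nat.exists_eq_succ_of_ne_zero hpos
    refine ⟨x ^ (2 ^ m), T.pow_mem hx0 _, Nat.find_min hex (by omega), ?_⟩
    have := Nat.find_spec hex
    rw [hm] at this
    rw [← pow_add, ← this]
    congr 1
    rw [Nat.succ_eq_add_one, pow_succ]; ring

theorem involution_lemma {T T' : Subgroup G} (hT : IsTorus T) (hT' : IsTorus T')
    (hTne : T ≠ ⊥) (hTne' : T' ≠ ⊥) (hc : Cl T) (hc' : Cl T') (hs : Sep T T')
    (hfd : FD T T') : False := by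
  obtain ⟨i, hi, hi1, hi2⟩ := exists_involution hT hTne
  obtain ⟨j, hj, hj1, hj2⟩ := exists_involution hT' hTne'
  obtain ⟨n, hn, hrn⟩ := finite_order hT hT' hfd hi hj hi2 hj2
  obtain ⟨a, m, hm, hnm⟩ := Nat.exists_eq_two_pow_mul_odd hn.ne'
  obtain ⟨q, hq⟩ := hm
  set r : G := i * j with hr
  have hii : i⁻¹ = i := inv_eq_of_mul_eq_one_left hi2
  have hjj : j⁻¹ = j := inv_eq_of_mul_eq_one_left hj2
  have hri : i * r * i⁻¹ = r⁻¹ := by
    rw [hr, mul_inv_rev, hii, hjj, ← mul_assoc, hi2, one_mul]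
  -- `j' = r^(-q) j r^q`, `i j' = r^(2q+1)`
  have hj' : (r ^ q)⁻¹ * j * r ^ q ∈ conjS (r ^ q)⁻¹ T' := by
    have := conj_mem_conjS (g := (r ^ q)⁻¹) hj
    rwa [inv_inv] at this
  have hprod : i * ((r ^ q)⁻¹ * j * r ^ q) = r ^ m := by
    have h1 : i * (r ^ q)⁻¹ * i⁻¹ = r ^ q := by
      have h2 : i * r ^ q * i⁻¹ = (r ^ q)⁻¹ := by
        rw [← conj_pow, hri, inv_pow]
      calc i * (r ^ q)⁻¹ * i⁻¹ = (i * r ^ q * i⁻¹)⁻¹ := by group
        _ = r ^ q := by rw [h2, inv_inv]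
    calc i * ((r ^ q)⁻¹ * j * r ^ q) = (i * (r ^ q)⁻¹ * i⁻¹) * (i * j) * r ^ q := by group
      _ = r ^ q * r * r ^ q := by rw [h1]
      _ = r ^ m := by
        rw [hq, show 2 * q + 1 = q + 1 + q by ring, pow_add, pow_succ]
  refine no_two_power hT (hT'.conj (r ^ q)⁻¹) hc (hc'.conj _) (hs.conj_right _) hi hj' hi1 ?_ hi2
    ?_ a ?_
  · intro h
    apply hj1
    have : j = r ^ q * ((r ^ q)⁻¹ * j * r ^ q) * (r ^ q)⁻¹ := by group
    rw [this, h]; group
  · calc (r ^ q)⁻¹ * j * r ^ q * ((r ^ q)⁻¹ * j * r ^ q) = (r ^ q)⁻¹ * (j * j) * r ^ q := by group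
      _ = 1 := by rw [hj2]; group
  · rw [hprod, ← pow_mul, mul_comm, ← hnm, hrn]

end Pool.Agent.Cdeb98
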