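import Pool.Agent.Cdeb98.Socle

set_option autoImplicit false

/-!
The induction: a group that is a finite union of double cosets `D s E` of two tori, with no
nontrivial element of `D` conjugate to an element of `E`, has a torus of finite index.
Then the theorem on products `G = A B`.
-/

namespace Pool.Agent.Cdeb98

open Subgroup

open scoped Pointwise

universe u v

variable {G : Type u} [Group G]

/-- finite transversals -/
theorem exists_left_transversal {P Q : Subgroup G} (hi : P.relIndex Q ≠ 0) :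
    ∃ R : Set G, R.Finite ∧ ∀ q ∈ Q, ∃ ρ ∈ R, ρ ∈ Q ∧ ∃ p ∈ P, q = ρ * p := by
  have hfin : Finite (Q ⧸ P.subgroupOf Q) := by
    have : (P.subgroupOf Q).FiniteIndex := ⟨hi⟩
    infer_instance
  refine ⟨Set.range (fun z : Q ⧸ P.subgroupOf Q => ((Quotient.out z : Q) : G)),
    Set.finite_range _, ?_⟩
  intro q hq
  refine ⟨_, ⟨(QuotientGroup.mk ⟨q, hq⟩ : Q ⧸ P.subgroupOf Q), rfl⟩, (Quotient.out _ : Q).2, ?_⟩
  set z : Q ⧸ P.subgroupOf Q := QuotientGroup.mk ⟨q, hq⟩ with hz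
  have h1 : (QuotientGroup.mk (Quotient.out z) : Q ⧸ P.subgroupOf Q) =
      QuotientGroup.mk ⟨q, hq⟩ := by
    rw [QuotientGroup.out_eq']
  rw [QuotientGroup.eq] at h1
  refine ⟨((Quotient.out z : Q) : G)⁻¹ * q, h1, ?_⟩
  group

theorem FD.symm {D E : Subgroup G} (h : FD D E) : FD E D := by
  obtain ⟨S, hS, hcov⟩ := h
  refine ⟨(fun s => s⁻¹) '' S, hS.image _, fun x => ?_⟩
  obtain ⟨s, hs, d, hd, e, he, hx⟩ := hcov x⁻¹
  refine ⟨s⁻¹, ⟨s, hs, rfl⟩, e⁻¹, E.inv_mem he, d⁻¹, D.inv_mem hd, ?_⟩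
  rw [← inv_inv x, hx]; group

theorem FD.finiteIndex {D E : Subgroup G} (h : FD D E) :
    ∃ s : G, (D ⊔ conjS s E).FiniteIndex := by
  classical
  obtain ⟨S, hS, hcov⟩ := h
  have hcover : ⋃ s ∈ hS.toFinset, (fun s : G => s) s •
      ((conjS s⁻¹ (D ⊔ conjS s E) : Subgroup G) : Set G) = Set.univ := by
    rw [Set.eq_univ_iff_forall]
    intro x
    obtain ⟨s, hs, d, hd, e, he, hx⟩ := hcov x
    rw [Set.mem_iUnion₂]
    refine ⟨s, hS.mem_toFinset.2 hs, ?_⟩
    rw [mem_leftCoset_iff]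
    change s⁻¹ * x ∈ conjS s⁻¹ (D ⊔ conjS s E)
    rw [mem_conjS]
    have h1 : s⁻¹⁻¹ * (s⁻¹ * x) * s⁻¹ = d * (s * e * s⁻¹) := by
      rw [hx]; group
    rw [h1]
    exact (D ⊔ conjS s E).mul_mem ((le_sup_left : D ≤ D ⊔ conjS s E) hd)
      ((le_sup_right : conjS s E ≤ D ⊔ conjS s E) (conj_mem_conjS he))
  obtain ⟨s, _, hs⟩ := Subgroup.exists_finiteIndex_of_leftCoset_cover hcover
  refine ⟨s, ?_⟩
  have h2 := conjS_finiteIndex s _ hs
  have h3 : conjS s (conjS s⁻¹ (D ⊔ conjS s E)) = D ⊔ conjS s E := by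
    rw [← conjS_mul, mul_inv_cancel, conjS_one]
  rwa [h3] at h2

/-- a subgroup of finite index generated by tori is normal -/
theorem normal_of_tori {D E : Subgroup G} (hD : IsTorus D) (hE : IsTorus E)
    (hf : (D ⊔ E).FiniteIndex) : (D ⊔ E).Normal := by
  constructor
  intro n hn g
  have h1 : (conjS g⁻¹ (D ⊔ E)).FiniteIndex := conjS_finiteIndex _ _ hf
  have h2 : D ⊔ E ≤ conjS g⁻¹ (D ⊔ E) :=
    sup_le (hD.le_of_finiteIndex h1) (hE.le_of_finiteIndex h1)
  have h3 := h2 hn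
  rw [mem_conjS, inv_inv] at h3
  exact h3

theorem FD_subgroup {D E1 C P : Subgroup G} (hfd : FD D E1) (hDC : D ≤ C) (hP : P ≤ C ⊓ E1)
    (hi : P.relIndex (C ⊓ E1) ≠ 0) : FD (D.subgroupOf C) (P.subgroupOf C) := by
  classical
  obtain ⟨S, hS, hcov⟩ := hfd
  obtain ⟨R, hR, hRcov⟩ := exists_left_transversal hi
  let γ : G → G := fun s => if h : ∃ c ∈ C, ∃ e ∈ E1, c = s * e then h.choose else 1
  have hγ : ∀ s, (∃ c ∈ C, ∃ e ∈ E1, c = s * e) → γ s ∈ C ∧ ∃ e ∈ E1, γ s = s * e := by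
    intro s hs
    have h1 : γ s = hs.choose := dif_pos hs
    rw [h1]
    exact hs.choose_spec
  refine ⟨Subtype.val ⁻¹' (Set.image2 (fun s ρ => γ s * ρ) S R),
    (hS.image2 _ hR).preimage Subtype.val_injective.injOn, ?_⟩
  rintro ⟨c, hc⟩
  obtain ⟨s, hs, d, hd, e, he, hx⟩ := hcov c
  have hex : ∃ c ∈ C, ∃ e ∈ E1, c = s * e :=
    ⟨d⁻¹ * c, C.mul_mem (C.inv_mem (hDC hd)) hc, e, he, by rw [hx]; group⟩
  obtain ⟨hγC, e', he', hγe⟩ := hγ s hex
  have hq : (γ s)⁻¹ * (d⁻¹ * c) ∈ C ⊓ E1 := by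
    refine ⟨C.mul_mem (C.inv_mem hγC) (C.mul_mem (C.inv_mem (hDC hd)) hc), ?_⟩
    have h1 : (γ s)⁻¹ * (d⁻¹ * c) = e'⁻¹ * e := by rw [hγe, hx]; group
    rw [h1]
    exact E1.mul_mem (E1.inv_mem he') he
  obtain ⟨ρ, hρR, hρQ, p, hp, hqp⟩ := hRcov _ hq
  refine ⟨⟨γ s * ρ, C.mul_mem hγC hρQ.1⟩, ⟨s, hs, ρ, hρR, rfl⟩, ⟨d, hDC hd⟩, hd,
    ⟨p, (hP hp).1⟩, hp, ?_⟩
  apply Subtype.ext
  change c = d * (γ s * ρ) * p
  have h2 : c = d * (γ s * ((γ s)⁻¹ * (d⁻¹ * c))) := by group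
  rw [h2, hqp]; group

theorem torus_of_subtype {C : Subgroup G} {T : Subgroup C} (hT : IsTorus T)
    (hf : T.FiniteIndex) : ∃ T' : Subgroup G, IsTorus T' ∧ T' ≤ C ∧ T'.relIndex C ≠ 0 := by
  refine ⟨T.map C.subtype, hT.map _, ?_, ?_⟩
  · rintro _ ⟨x, _, rfl⟩
    exact x.2
  · have h1 : (T.map C.subtype).subgroupOf C = T := by
      rw [Subgroup.subgroupOf, Subgroup.comap_map_eq_self_of_injective
        (Subgroup.subtype_injective C)]
    rw [Subgroup.relIndex, h1]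
    exact hf.index_ne_zero

theorem claim1 {n : ℕ}
    (IH : ∀ (H : Type u) [Group H] (D E : Subgroup H), IsTorus D → IsTorus E →
      soc D + soc E < n → FD D E → Sep D E → ∃ T : Subgroup H, IsTorus T ∧ T.FiniteIndex)
    {D E : Subgroup G} (hD : IsTorus D) (hE : IsTorus E) (hn : soc D + soc E ≤ n)
    (hfd : FD D E) (hsep : Sep D E) {K : Subgroup G}
    (hK : ∀ x : G, (∀ d ∈ D, d * x = x * d) → (∀ g, ∀ e ∈ conjS g E, e * x = x * e) → x ∈ K) :
    ∀ x : G, (∀ d ∈ D, d * x = x * d) → x ∉ K → ∃ T : Subgroup G, IsTorus T ∧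
      T ≤ centralizer {x} ∧ T.relIndex (centralizer {x}) ≠ 0 := by
  intro x hx hxK
  set C : Subgroup G := centralizer {x} with hC
  have hDC : D ≤ C := le_centralizer_singleton hx
  obtain ⟨g, hg⟩ : ∃ g, ¬ conjS g E ≤ C := by
    by_contra hcon
    push Not at hcon
    apply hxK
    refine hK x hx ?_
    intro g e he
    exact mem_centralizer_singleton.1 (hcon g he)
  have hE1 : IsTorus (conjS g E) := hE.conj g
  have hQE : C ⊓ conjS g E ≤ conjS g E := inf_le_right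
  obtain ⟨P, hPQ, hP, hPi⟩ := exists_torus (Q := C ⊓ conjS g E)
    (fun x hx y hy => hE1.comm x (hQE hx) y (hQE hy)) (fun x hx => hE1.tors x (hQE hx))
    (dcc_of_le hQE hE1.min)
  have hPC : P ≤ C := hPQ.trans inf_le_left
  have hlt : soc P < soc (conjS g E) := by
    refine soc_lt hP hE1 (hPQ.trans hQE) ?_
    intro h
    exact hg (h.trans hPC)
  have hfdC : FD (D.subgroupOf C) (P.subgroupOf C) :=
    FD_subgroup (hfd.conj_right g) hDC hPQ hPi
  have hsepC : Sep (D.subgroupOf C) (P.subgroupOf C) := by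
    intro t ht t' ht' hc
    have h1 : IsConj (t : G) (t' : G) := C.subtype.map_isConj hc
    have h2 := (hsep.conj_right g) (t : G) ht (t' : G) (hQE (hPQ ht')) h1
    exact Subtype.ext h2
  have hsoc : soc (D.subgroupOf C) + soc (P.subgroupOf C) < n := by
    have h1 := soc_subgroupOf hD C
    have h2 := soc_subgroupOf hP C
    have h3 := soc_conjS hE g
    omega
  obtain ⟨T, hT, hTf⟩ := IH C (D.subgroupOf C) (P.subgroupOf C) (hD.subgroupOf hDC)
    (hP.subgroupOf hPC) hsoc hfdC hsepC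
  exact torus_of_subtype hT hTf

theorem main_aux (n : ℕ) : ∀ (G : Type u) [Group G] (D E : Subgroup G), IsTorus D → IsTorus E →
    soc D + soc E < n → FD D E → Sep D E → ∃ T : Subgroup G, IsTorus T ∧ T.FiniteIndex := by
  induction n with
  | zero =>
    intro G _ D E _ _ h
    omega
  | succ n ih =>
    intro G _ D E hD hE hn hfd hsep
    obtain ⟨s, hs⟩ := hfd.finiteIndex
    obtain ⟨N, hN⟩ : ∃ N : Subgroup G, N = D ⊔ conjS s E := ⟨_, rfl⟩
    have hNf : N.FiniteIndex := by rw [hN]; exact hs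
    have hNn : N.Normal := by rw [hN]; exact normal_of_tori hD (hE.conj s) hs
    have hDN : D ≤ N := hD.le_of_finiteIndex hNf
    have hEN : ∀ g, conjS g E ≤ N := fun g => (hE.conj g).le_of_finiteIndex hNf
    have hgen : ∀ M : Subgroup G, D ≤ M → (∀ g, conjS g E ≤ M) → N ≤ M := by
      intro M h1 h2
      rw [hN]; exact sup_le h1 (h2 s)
    have hgen' : ∀ M : Subgroup G, E ≤ M → (∀ g, conjS g D ≤ M) → N ≤ M := by
      intro M h1 h2
      have h3 : N ≤ conjS s⁻¹ N := by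
        intro x hx
        rw [mem_conjS]
        have h4 := hNn.conj_mem x hx s
        rwa [inv_inv]
      refine h3.trans ?_
      rw [hN, conjS_sup, ← conjS_mul, inv_mul_cancel, conjS_one]
      exact sup_le (h2 _) h1
    have hcent : ∀ x : G, N ≤ centralizer {x} → x ∈ centralizer (N : Set G) := by
      intro x hx
      rw [Subgroup.mem_centralizer_iff]
      intro h hh
      exact mem_centralizer_singleton.1 (hx hh)
    -- the two easy cases
    have hcase : ∀ X Y : Subgroup G, IsTorus X → IsTorus Y → N = X ⊔ Y →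
        X ≤ centralizer (N : Set G) → ∃ T : Subgroup G, IsTorus T ∧ T.FiniteIndex := by
      intro X Y hX hY hXY hXc
      refine ⟨N, ?_, hNf⟩
      rw [hXY]
      refine hX.sup hY ?_
      intro x hx y hy
      have h1 := (Subgroup.mem_centralizer_iff.1 (hXc hx)) y
        (by rw [hXY]; exact (le_sup_right : Y ≤ X ⊔ Y) hy)
      exact h1.symm
    by_cases hDK : D ≤ centralizer (N : Set G)
    · exact hcase D (conjS s E) hD (hE.conj s) hN hDK
    by_cases hEK : E ≤ centralizer (N : Set G)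
    · refine hcase (conjS s E) D (hE.conj s) hD (by rw [hN, sup_comm]) ?_
      intro x hx
      rw [mem_conjS] at hx
      have hKn : (centralizer (N : Set G)).Normal := inferInstance
      have h1 := hKn.conj_mem _ (hEK hx) s
      have h2 : s * (s⁻¹ * x * s) * s⁻¹ = x := by group
      rwa [h2] at h1
    exfalso
    have c1 := claim1 (n := n) ih hD hE (by omega) hfd hsep (K := centralizer (N : Set G)) (by
      intro x h1 h2
      apply hcent
      exact hgen _ (le_centralizer_singleton h1) (fun g => le_centralizer_singleton (h2 g)))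
    have c2 := claim1 (n := n) ih hE hD (by omega) hfd.symm hsep.symm
      (K := centralizer (N : Set G)) (by
      intro x h1 h2
      apply hcent
      exact hgen' _ (le_centralizer_singleton h1) (fun g => le_centralizer_singleton (h2 g)))
    obtain ⟨T, hT, hDT, hcT⟩ := exists_clmod hD hDK c1
    obtain ⟨T', hT', hET, hcT'⟩ := exists_clmod hE hEK c2
    exact no_pair hT hT' hE hDT hET hDK hEK hNf hNn hgen hfd hsep hcT hcT'

theorem main {D E : Subgroup G} (hD : IsTorus D) (hE : IsTorus E) (hfd : FD D E)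
    (hsep : Sep D E) : ∃ T : Subgroup G, IsTorus T ∧ T.FiniteIndex :=
  main_aux (soc D + soc E + 1) G D E hD hE (by omega) hfd hsep

/-- The product theorem in terms of tori. -/
theorem product_torus {A B D E : Subgroup G} (hAB : ∀ g : G, ∃ a ∈ A, ∃ b ∈ B, g = a * b)
    (hD : IsTorus D) (hE : IsTorus E) (hDA : D ≤ A) (hEB : E ≤ B)
    (hDi : D.relIndex A ≠ 0) (hEi : E.relIndex B ≠ 0) :
    ∃ T : Subgroup G, IsTorus T ∧ T.Normal ∧ T.FiniteIndex := by
  -- `A` normalizes `D`, `B` normalizes `E`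
  have hnorm : ∀ X Y : Subgroup G, IsTorus X → X ≤ Y → X.relIndex Y ≠ 0 →
      ∀ y ∈ Y, conjS y X = X := by
    intro X Y hX hXY hi
    have h1 : ∀ y ∈ Y, conjS y X ≤ X := by
      intro y hy
      refine (hX.conj y).le_of_relIndex ?_ hi
      intro x hx
      rw [mem_conjS] at hx
      have h2 := Y.mul_mem (Y.mul_mem hy (hXY hx)) (Y.inv_mem hy)
      have h3 : y * (y⁻¹ * x * y) * y⁻¹ = x := by group
      rwa [h3] at h2
    intro y hy
    apply le_antisymm (h1 y hy)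
    have h2 := conjS_mono (g := y) (h1 y⁻¹ (Y.inv_mem hy))
    rwa [← conjS_mul, mul_inv_cancel, conjS_one] at h2
  have hnD := hnorm D A hD hDA hDi
  have hnE := hnorm E B hE hEB hEi
  -- finite union of double cosets
  have hfd : FD D E := by
    obtain ⟨R, hR, hRc⟩ := exists_left_transversal hDi
    obtain ⟨R', hR', hRc'⟩ := exists_left_transversal hEi
    refine ⟨Set.image2 (fun a b => a⁻¹ * b) R R', hR.image2 _ hR', fun g => ?_⟩
    obtain ⟨a, ha, b, hb, rfl⟩ := hAB g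
    obtain ⟨ρ, hρ, _, p, hp, hap⟩ := hRc a⁻¹ (A.inv_mem ha)
    obtain ⟨ρ', hρ', _, p', hp', hbp⟩ := hRc' b hb
    refine ⟨ρ⁻¹ * ρ', ⟨ρ, hρ, ρ', hρ', rfl⟩, p⁻¹, D.inv_mem hp, p', hp', ?_⟩
    have h1 : a = p⁻¹ * ρ⁻¹ := by
      rw [← inv_inv a, hap]; group
    rw [h1, hbp]; group
  obtain ⟨s, hs⟩ := hfd.finiteIndex
  -- all pairs generate a subgroup of finite index
  have hall : ∀ g : G, (D ⊔ conjS g E).FiniteIndex := by
    have h0 : ∀ a b : G, a ∈ A → b ∈ B → D ⊔ conjS (a * b) E = conjS a (D ⊔ E) := by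
      intro a b ha hb
      rw [conjS_sup, hnD a ha, conjS_mul, hnE b hb]
    obtain ⟨a0, ha0, b0, hb0, hs0⟩ := hAB s
    rw [hs0, h0 a0 b0 ha0 hb0] at hs
    have h1 : (D ⊔ E).FiniteIndex := by
      have h2 := conjS_finiteIndex a0⁻¹ _ hs
      rwa [← conjS_mul, inv_mul_cancel, conjS_one] at h2
    intro g
    obtain ⟨a, ha, b, hb, rfl⟩ := hAB g
    rw [h0 a b ha hb]
    exact conjS_finiteIndex _ _ h1
  obtain ⟨N, hN⟩ : ∃ N : Subgroup G, N = D ⊔ E := ⟨_, rfl⟩
  have hNf : N.FiniteIndex := by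
    have := hall 1
    rwa [conjS_one, ← hN] at this
  have hNn : N.Normal := by
    rw [hN]; rw [hN] at hNf; exact normal_of_tori hD hE hNf
  have hNle : ∀ g, N ≤ D ⊔ conjS g E := by
    intro g
    rw [hN]
    exact sup_le (hD.le_of_finiteIndex (hall g)) (hE.le_of_finiteIndex (hall g))
  obtain ⟨K, hKc⟩ : ∃ K : Subgroup G, K = centralizer (N : Set G) := ⟨_, rfl⟩
  have hKn : K.Normal := by rw [hKc]; infer_instance
  have hKcomm : ∀ k ∈ K, ∀ u ∈ N, u * k = k * u := by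
    intro k hk u hu
    rw [hKc] at hk
    exact (Subgroup.mem_centralizer_iff.1 hk) u hu
  have hDN : D ≤ N := hD.le_of_finiteIndex hNf
  have hEN : ∀ g, conjS g E ≤ N := fun g => (hE.conj g).le_of_finiteIndex hNf
  obtain ⟨π, hπ⟩ : ∃ π : G →* G ⧸ K, π = QuotientGroup.mk' K := ⟨_, rfl⟩
  have hsurj : Function.Surjective π := by rw [hπ]; exact QuotientGroup.mk'_surjective K
  have hone : ∀ x, π x = 1 ↔ x ∈ K := by
    intro x; rw [hπ]; exact QuotientGroup.eq_one_iff x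
  have hfdq : FD (D.map π) (E.map π) := by
    obtain ⟨S, hS, hcov⟩ := hfd
    refine ⟨π '' S, hS.image _, fun q => ?_⟩
    obtain ⟨g, rfl⟩ := hsurj q
    obtain ⟨s, hs, d, hd, e, he, rfl⟩ := hcov g
    exact ⟨π s, ⟨s, hs, rfl⟩, π d, ⟨d, hd, rfl⟩, π e, ⟨e, he, rfl⟩, by
      rw [map_mul, map_mul]⟩
  have hsepq : Sep (D.map π) (E.map π) := by
    rintro _ ⟨t, ht, rfl⟩ _ ⟨t', ht', rfl⟩ hc
    rw [isConj_iff] at hc
    obtain ⟨c, hc⟩ := hc
    obtain ⟨g, rfl⟩ := hsurj c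
    have h1 : t⁻¹ * (g⁻¹ * t' * g) ∈ K := by
      rw [← hone, map_mul, map_mul, map_mul, map_inv, map_inv, ← hc]; group
    obtain ⟨e, he⟩ : ∃ e : G, e = g⁻¹ * t' * g := ⟨_, rfl⟩
    rw [← he] at h1
    have heE : e ∈ conjS g⁻¹ E := by
      rw [he]
      have := conj_mem_conjS (g := g⁻¹) ht'
      rwa [inv_inv] at this
    rw [hone]
    have h2 : N ≤ centralizer {t} := by
      refine (hNle g⁻¹).trans (sup_le ?_ ?_)
      · exact le_centralizer_singleton (fun d hd => hD.comm d hd t ht)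
      · refine le_centralizer_singleton (fun p hp => ?_)
        have h3 := (hE.conj g⁻¹).comm p hp e heE
        have h4 := hKcomm _ h1 p (hEN _ hp)
        -- `e = t k`
        have h5 : t = e * (t⁻¹ * e)⁻¹ := by group
        have h6 : p * (t⁻¹ * e)⁻¹ = (t⁻¹ * e)⁻¹ * p :=
          ((show Commute p (t⁻¹ * e) from h4).inv_right)
        calc p * t = p * (e * (t⁻¹ * e)⁻¹) := by rw [← h5]
          _ = (p * e) * (t⁻¹ * e)⁻¹ := by rw [mul_assoc]
          _ = e * (p * (t⁻¹ * e)⁻¹) := by rw [h3, mul_assoc]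
          _ = e * (t⁻¹ * e)⁻¹ * p := by rw [h6, mul_assoc]
          _ = t * p := by rw [← h5]
    rw [hKc, Subgroup.mem_centralizer_iff]
    intro h hh
    exact mem_centralizer_singleton.1 (h2 hh)
  obtain ⟨T, hT, hTf⟩ := main (hD.map π) (hE.map π) hfdq hsepq
  -- `D` and `E` commute
  have hDE : ∀ d ∈ D, ∀ e ∈ E, d * e = e * d := by
    have hDT := (hD.map π).le_of_finiteIndex hTf
    have hET := (hE.map π).le_of_finiteIndex hTf
    have hcK : ∀ d ∈ D, ∀ e ∈ E, d * e * d⁻¹ * e⁻¹ ∈ K := by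
      intro d hd e he
      have h1 := hT.comm (π d) (hDT ⟨d, hd, rfl⟩) (π e) (hET ⟨e, he, rfl⟩)
      rw [← hone, map_mul, map_mul, map_mul, map_inv, map_inv, h1]; group
    intro d hd e he
    obtain ⟨k, hk⟩ := hD.tors d hd
    obtain ⟨f, hf, hfe⟩ := hE.div (2 ^ k) (by positivity) e he
    obtain ⟨c, hc⟩ : ∃ c : G, c = d * f * d⁻¹ * f⁻¹ := ⟨_, rfl⟩
    have hcK' : c ∈ K := by rw [hc]; exact hcK d hd f hf
    have hdN : d ∈ N := hDN hd
    have hfN : f ∈ N := by
      have := hEN 1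
      rw [conjS_one] at this
      exact this hf
    have hdc := hKcomm c hcK' d hdN
    have hfc := hKcomm c hcK' f hfN
    have hdf : d * f * d⁻¹ = c * f := by rw [hc]; group
    -- conjugating by powers of `d`
    have h1 : ∀ n : ℕ, d ^ n * f * (d ^ n)⁻¹ = c ^ n * f := by
      intro n
      induction n with
      | zero => simp
      | succ n ih =>
        have h2 : d * c ^ n = c ^ n * d := (show Commute d c from hdc).pow_right n
        calc d ^ (n + 1) * f * (d ^ (n + 1))⁻¹ = d * (d ^ n * f * (d ^ n)⁻¹) * d⁻¹ := by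
              rw [pow_succ']; group
          _ = (d * c ^ n) * f * d⁻¹ := by rw [ih]; group
          _ = c ^ n * (d * f * d⁻¹) := by rw [h2]; group
          _ = c ^ (n + 1) * f := by rw [hdf, pow_succ]; group
    have hc1 : c ^ (2 ^ k) = 1 := by
      have h2 := h1 (2 ^ k)
      rw [hk] at h2
      have h3 : f = c ^ (2 ^ k) * f := by simpa using h2
      exact (mul_eq_right.1 h3.symm)
    have h4 : d * e * d⁻¹ = e := by
      rw [← hfe]
      calc d * f ^ (2 ^ k) * d⁻¹ = (d * f * d⁻¹) ^ (2 ^ k) := by rw [conj_pow]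
        _ = (c * f) ^ (2 ^ k) := by rw [hdf]
        _ = c ^ (2 ^ k) * f ^ (2 ^ k) := (show Commute c f from hfc.symm).mul_pow _
        _ = f ^ (2 ^ k) := by rw [hc1, one_mul]
    calc d * e = (d * e * d⁻¹) * d := by group
      _ = e * d := by rw [h4]
  have hTor : IsTorus (D ⊔ E) := hD.sup hE hDE
  rw [hN] at hNn hNf
  exact ⟨D ⊔ E, hTor, hNn, hNf⟩

/-- from the finite-extension form of the hypothesis to a torus of finite index -/
theorem exists_torus_of_chernikov {A : Subgroup G}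
    (hA : ∃ N : Subgroup ↥A, N.Normal ∧ N.FiniteIndex ∧ (∀ x y : ↥N, x * y = y * x) ∧
      WellFoundedLT (Subgroup ↥N) ∧ IsPGroup 2 ↥N) :
    ∃ D : Subgroup G, IsTorus D ∧ D ≤ A ∧ D.relIndex A ≠ 0 := by
  obtain ⟨N, _, hNf, hNc, hNmin, hN2⟩ := hA
  obtain ⟨P, hPN, hP, hPi⟩ := exists_torus (Q := N)
    (fun x hx y hy => by
      have := hNc ⟨x, hx⟩ ⟨y, hy⟩
      exact congrArg Subtype.val this)
    (fun x hx => by
      obtain ⟨k, hk⟩ := hN2 ⟨x, hx⟩
      exact ⟨k, congrArg Subtype.val hk⟩) hNmin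
  have hPf : P.FiniteIndex := by
    constructor
    have h1 : N.relIndex ⊤ ≠ 0 := by
      rw [Subgroup.relIndex_top_right]; exact hNf.index_ne_zero
    have h2 := Subgroup.relIndex_ne_zero_trans hPi h1
    rwa [Subgroup.relIndex_top_right] at h2
  obtain ⟨T, hT, hTA, hTi⟩ := torus_of_subtype hP hPf
  exact ⟨T, hT, hTA, hTi⟩

end Pool.Agent.Cdeb98
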