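import Pool.Agent.Cdeb98.Involution

set_option autoImplicit false

/-!
Passing to the quotient by the centralizer of the finite residual.
-/

namespace Pool.Agent.Cdeb98

open Subgroup

universe u v

variable {G : Type u} [Group G]

/-- `T` has finite index in the centralizer of each of its elements outside `K` -/
def ClMod (K T : Subgroup G) : Prop :=
  ∀ e ∈ T, e ∉ K → T.relIndex (centralizer {e}) ≠ 0

theorem le_centralizer_singleton {P : Subgroup G} {e : G} (hc : ∀ p ∈ P, p * e = e * p) :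
    P ≤ centralizer {e} := by
  intro p hp
  rw [Subgroup.mem_centralizer_iff]
  intro h hh
  rw [Set.mem_singleton_iff] at hh
  subst hh
  exact (hc p hp).symm

theorem mem_centralizer_singleton {x e : G} : x ∈ centralizer {e} ↔ x * e = e * x := by
  rw [Subgroup.mem_centralizer_iff]
  constructor
  · intro h
    exact (h e rfl).symm
  · intro h f hf
    rw [Set.mem_singleton_iff] at hf
    subst hf
    exact h.symm

theorem ClMod.le {K T : Subgroup G} (h : ClMod K T) {e : G} (he : e ∈ T) (heK : e ∉ K)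
    {P : Subgroup G} (hP : IsTorus P) (hc : ∀ p ∈ P, p * e = e * p) : P ≤ T :=
  hP.le_of_relIndex (le_centralizer_singleton hc) (h e he heK)

theorem ClMod.le_conj {K T : Subgroup G} (hK : K.Normal) (h : ClMod K T) {g e : G}
    (he : e ∈ conjS g T) (heK : e ∉ K) {P : Subgroup G} (hP : IsTorus P)
    (hc : ∀ p ∈ P, p * e = e * p) : P ≤ conjS g T := by
  intro x hx
  rw [mem_conjS] at he ⊢
  have heK' : g⁻¹ * e * g ∉ K := by
    intro h1
    apply heK
    have h2 := hK.conj_mem _ h1 g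
    have h3 : g * (g⁻¹ * e * g) * g⁻¹ = e := by group
    rwa [h3] at h2
  refine h.le he heK' (P := conjS g⁻¹ P) (hP.conj _) ?_ ?_
  · intro p hp
    rw [mem_conjS] at hp
    have := hc _ hp
    simp only [inv_inv] at this
    calc p * (g⁻¹ * e * g) = g⁻¹ * ((g * p * g⁻¹) * e) * g := by group
      _ = g⁻¹ * (e * (g * p * g⁻¹)) * g := by rw [this]
      _ = g⁻¹ * e * g * p := by group
  · rw [mem_conjS]
    have : g⁻¹⁻¹ * (g⁻¹ * x * g) * g⁻¹ = x := by group
    rw [this]; exact hx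

theorem exists_clmod {D K : Subgroup G} (hD : IsTorus D) (hDK : ¬ D ≤ K)
    (h1 : ∀ x : G, (∀ d ∈ D, d * x = x * d) → x ∉ K → ∃ T : Subgroup G, IsTorus T ∧
      T ≤ centralizer {x} ∧ T.relIndex (centralizer {x}) ≠ 0) :
    ∃ T : Subgroup G, IsTorus T ∧ D ≤ T ∧ ClMod K T := by
  obtain ⟨x0, hx0, hx0K⟩ := SetLike.not_le_iff_exists.1 hDK
  obtain ⟨T, hT, hTle, hTi⟩ := h1 x0 (fun d hd => hD.comm d hd x0 hx0) hx0K
  have hDT : D ≤ T :=
    hD.le_of_relIndex (le_centralizer_singleton (fun d hd => hD.comm d hd x0 hx0)) hTi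
  refine ⟨T, hT, hDT, ?_⟩
  intro e he heK
  obtain ⟨T1, hT1, hT1le, hT1i⟩ := h1 e (fun d hd => hT.comm d (hDT hd) e he) heK
  have h2 : T ≤ T1 :=
    hT.le_of_relIndex (le_centralizer_singleton (fun d hd => hT.comm d hd e he)) hT1i
  have h3 : T1 ≤ T :=
    hT1.le_of_relIndex (le_centralizer_singleton
      (fun d hd => hT1.comm d hd x0 (h2 (hDT hx0)))) hTi
  rw [le_antisymm h2 h3]
  exact hT1i

theorem relIndex_ne_zero_of_map {T H : Subgroup G} {S : Set G} (hS : S.Finite) (f : G → G)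
    (hf : ∀ t ∈ T, f t ∈ S) (hinj : ∀ t ∈ T, ∀ t' ∈ T, f t = f t' → t⁻¹ * t' ∈ H) :
    H.relIndex T ≠ 0 := by
  have : Finite S := hS
  let F : (T ⧸ H.subgroupOf T) → S := fun q => ⟨f (Quotient.out q : T), hf _ (Quotient.out q).2⟩
  have hF : Function.Injective F := by
    intro a b hab
    have h1 : f (Quotient.out a : T) = f (Quotient.out b : T) := congrArg Subtype.val hab
    have h2 := hinj _ (Quotient.out a).2 _ (Quotient.out b).2 h1
    have h3 : (QuotientGroup.mk (Quotient.out a) : T ⧸ H.subgroupOf T) =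
        QuotientGroup.mk (Quotient.out b) := by
      rw [QuotientGroup.eq]
      exact h2
    rwa [QuotientGroup.out_eq', QuotientGroup.out_eq'] at h3
  have hfin : Finite (T ⧸ H.subgroupOf T) := Finite.of_injective F hF
  exact (Subgroup.finiteIndex_of_finite_quotient (H := H.subgroupOf T)).index_ne_zero

/-- the descending chain argument -/
theorem chain_lemma {D E T : Subgroup G} (hT : IsTorus T) (hE : IsTorus E) (hDT : D ≤ T)
    (hET : E ≤ T) (hdisj : ∀ x ∈ D, x ∈ E → x = 1) (s : G)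
    (hcov : ∀ e ∈ E, ∃ d ∈ D, ∃ v ∈ E, e = d * (s * v * s⁻¹)) :
    ∀ v ∈ E, s * v * s⁻¹ ∈ T := by
  obtain ⟨V, hV0, hVs⟩ : ∃ V : ℕ → Subgroup G, V 0 = E ∧
      ∀ n, V (n + 1) = E ⊓ (D ⊔ V n).comap (MulAut.conj s).toMonoidHom :=
    ⟨fun n => Nat.rec E (fun _ U => E ⊓ (D ⊔ U).comap (MulAut.conj s).toMonoidHom) n,
      rfl, fun n => rfl⟩
  have hVE : ∀ n, V n ≤ E := by
    intro n
    cases n with
    | zero => rw [hV0]
    | succ n => rw [hVs]; exact inf_le_left
  have hanti : ∀ n, V (n + 1) ≤ V n := by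
    intro n
    induction n with
    | zero => rw [hV0]; exact hVE 1
    | succ n ih =>
      have h1 : D ⊔ V (n + 1) ≤ D ⊔ V n := sup_le_sup le_rfl ih
      exact (hVs (n + 1)).le.trans
        ((inf_le_inf le_rfl (Subgroup.comap_mono h1)).trans (hVs n).ge)
  have hmem : ∀ n x, x ∈ V (n + 1) ↔ x ∈ E ∧ s * x * s⁻¹ ∈ D ⊔ V n := by
    intro n x
    rw [hVs, Subgroup.mem_inf, Subgroup.mem_comap]
    simp only [MulEquiv.toMonoidHom_eq_coe, MonoidHom.coe_coe, MulAut.conj_apply]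
  have hcomm : ∀ n, ∀ x ∈ D, ∀ y ∈ V n, x * y = y * x := fun n x hx y hy =>
    hT.comm x (hDT hx) y (hET (hVE n hy))
  obtain ⟨n, hn⟩ := hE.chain V hVE hanti
  have hdown : ∀ n, V (n + 1) = V n → V 1 = V 0 := by
    intro n
    induction n with
    | zero => exact fun h => h
    | succ n ih =>
      intro h
      apply ih
      apply le_antisymm (hanti n)
      intro e he
      obtain ⟨d, hd, v, hv, hev⟩ := hcov e (hVE n he)
      have h1 : s * v * s⁻¹ = d⁻¹ * e := by rw [hev]; group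
      have h2 : v ∈ V (n + 1) := by
        rw [hmem]
        refine ⟨hv, ?_⟩
        rw [h1]
        exact (D ⊔ V n).mul_mem ((le_sup_left : D ≤ D ⊔ V n) (D.inv_mem hd))
          ((le_sup_right : V n ≤ D ⊔ V n) he)
      rw [← h, hmem] at h2
      obtain ⟨d', hd', e', he', hde⟩ := mem_sup_of_comm (hcomm (n + 1)) h2.2
      have h3 : e * e'⁻¹ = d * d' := by
        have h4 : e = d * d' * e' := by
          rw [mul_assoc, ← hde, h1]; group
        rw [h4]; group
      have h5 : e * e'⁻¹ = 1 := by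
        apply hdisj
        · rw [h3]; exact D.mul_mem hd hd'
        · exact E.mul_mem (hVE n he) (E.inv_mem (hVE (n + 1) he'))
      have h6 : e = e' := mul_inv_eq_one.1 h5
      rw [h6]; exact he'
  have h10 := hdown n hn
  intro v hv
  have h1 : v ∈ V 1 := by rw [h10, hV0]; exact hv
  have h2 := ((hmem 0 v).1 h1).2
  rw [hV0] at h2
  exact (sup_le hDT hET) h2

theorem FD.conj_right {D E : Subgroup G} (h : FD D E) (g : G) : FD D (conjS g E) := by
  obtain ⟨S, hS, hcov⟩ := h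
  refine ⟨(fun s => s * g⁻¹) '' S, hS.image _, fun x => ?_⟩
  obtain ⟨s, hs, d, hd, e, he, hx⟩ := hcov (x * g)
  refine ⟨s * g⁻¹, ⟨s, hs, rfl⟩, d, hd, g * e * g⁻¹, conj_mem_conjS he, ?_⟩
  calc x = x * g * g⁻¹ := by group
    _ = d * s * e * g⁻¹ := by rw [hx]
    _ = d * (s * g⁻¹) * (g * e * g⁻¹) := by group

/-- separation modulo the centralizer of `N` -/
theorem sep_mod {D E T T' N K : Subgroup G} (hT : IsTorus T) (hT' : IsTorus T')
    (hE : IsTorus E) (hDT : D ≤ T) (hET : E ≤ T')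
    (hEK : ¬ E ≤ K) (hNf : N.FiniteIndex) (hKn : K.Normal) (hKc : K = centralizer (N : Set G))
    (hgen : ∀ M : Subgroup G, D ≤ M → (∀ g, conjS g E ≤ M) → N ≤ M) (hfd : FD D E)
    (hsep : Sep D E) (hcT : ClMod K T)
    (hcT' : ClMod K T') {g t t' : G} (ht : t ∈ T)
    (ht' : t' ∈ conjS g T') (hk : t⁻¹ * t' ∈ K) : t ∈ K := by
  by_contra htK
  set k : G := t⁻¹ * t' with hkdef
  have htk : t' = t * k := by rw [hkdef]; group
  have ht'K : t' ∉ K := by
    intro h
    apply htK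
    have h1 : t = t' * k⁻¹ := by rw [htk]; group
    rw [h1]
    exact K.mul_mem h (K.inv_mem hk)
  have hTN : T ≤ N := hT.le_of_finiteIndex hNf
  have hT'N : conjS g T' ≤ N := (hT'.conj g).le_of_finiteIndex hNf
  have hcomm : ∀ u ∈ N, u * k = k * u := by
    rw [hKc] at hk
    exact fun u hu => (Subgroup.mem_centralizer_iff.1 hk) u hu
  have hTT1 : T ≤ conjS g T' := by
    refine hcT'.le_conj hKn ht' ht'K hT ?_
    intro p hp
    have h1 := hT.comm p hp t ht
    have h2 := hcomm p (hTN hp)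
    calc p * t' = (p * t) * k := by rw [htk]; group
      _ = t * (p * k) := by rw [h1]; group
      _ = t * k * p := by rw [h2]; group
      _ = t' * p := by rw [htk]
  have hTT2 : conjS g T' ≤ T := by
    refine hcT.le ht htK (hT'.conj g) ?_
    intro p hp
    have h1 := (hT'.conj g).comm p hp t' ht'
    have h2 := hcomm p (hT'N hp)
    have h3 : t = t' * k⁻¹ := by rw [htk]; group
    have h4 : p * k⁻¹ = k⁻¹ * p := by
      have : Commute p k := h2
      exact this.inv_right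
    calc p * t = (p * t') * k⁻¹ := by rw [h3]; group
      _ = t' * (p * k⁻¹) := by rw [h1]; group
      _ = t' * k⁻¹ * p := by rw [h4]; group
      _ = t * p := by rw [← h3]
  set E1 : Subgroup G := conjS g E with hE1def
  have hE1 : IsTorus E1 := hE.conj g
  have hE1T : E1 ≤ T := (conjS_mono hET).trans hTT2
  -- `T` is not normal
  obtain ⟨s, hs⟩ : ∃ s, ¬ conjS s T ≤ T := by
    by_contra hcon
    push Not at hcon
    apply htK
    have hNT : N ≤ T := by
      refine hgen T hDT ?_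
      intro c
      have h1 : conjS c E = conjS (c * g⁻¹) E1 := by
        rw [hE1def, ← conjS_mul]; congr 1; group
      rw [h1]
      exact (conjS_mono hE1T).trans (hcon _)
    rw [hKc, Subgroup.mem_centralizer_iff]
    intro h hh
    exact hT.comm h (hNT hh) t ht
  have hint : ∀ u ∈ T, u ∈ conjS s T → u ∈ K := by
    intro u hu hu'
    by_contra huK
    apply hs
    exact hcT.le hu huK (hT.conj s) (fun p hp => (hT.conj s).comm p hp u hu')
  have hfd1 : FD D E1 := hfd.conj_right g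
  obtain ⟨S, hS, hcov⟩ := hfd1
  have hTW : T ≤ D ⊔ (T ⊓ conjS s E1) := by
    refine hT.le_of_relIndex le_rfl ?_
    choose σ hσ d hd e he heq using hcov
    refine relIndex_ne_zero_of_map hS (fun t => σ (t * s)) (fun t _ => hσ _) ?_
    intro a ha b hb hab
    have hab' : σ (a * s) = σ (b * s) := hab
    have h1 := heq (a * s)
    have h2 := heq (b * s)
    rw [← hab'] at h2
    set d1 := d (a * s)
    set d2 := d (b * s)
    set e1 := e (a * s)
    set e2 := e (b * s)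
    set τ := σ (a * s)
    have hd1 : d1 ∈ D := hd _
    have hd2 : d2 ∈ D := hd _
    have he1 : e1 ∈ E1 := he _
    have he2 : e2 ∈ E1 := he _
    have hw : s * (e1⁻¹ * e2) * s⁻¹ = a⁻¹ * (d2 * d1⁻¹)⁻¹ * b := by
      have h3 : s * e1⁻¹ = a⁻¹ * d1 * τ := by
        have : a * s * e1⁻¹ = d1 * τ := by rw [h1]; group
        calc s * e1⁻¹ = a⁻¹ * (a * s * e1⁻¹) := by group
          _ = a⁻¹ * d1 * τ := by rw [this]; group
      have h4 : e2 * s⁻¹ = τ⁻¹ * d2⁻¹ * b := by
        have : b * s * s⁻¹ = d2 * τ * e2 * s⁻¹ := by rw [h2]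
        have h5 : b = d2 * τ * (e2 * s⁻¹) := by
          calc b = b * s * s⁻¹ := by group
            _ = d2 * τ * (e2 * s⁻¹) := by rw [this]; group
        rw [h5]; group
      calc s * (e1⁻¹ * e2) * s⁻¹ = (s * e1⁻¹) * (e2 * s⁻¹) := by group
        _ = (a⁻¹ * d1 * τ) * (τ⁻¹ * d2⁻¹ * b) := by rw [h3, h4]
        _ = a⁻¹ * (d2 * d1⁻¹)⁻¹ * b := by group
    have hdT : d2 * d1⁻¹ ∈ T := T.mul_mem (hDT hd2) (T.inv_mem (hDT hd1))
    have hwT : s * (e1⁻¹ * e2) * s⁻¹ ∈ T ⊓ conjS s E1 := by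
      refine ⟨?_, conj_mem_conjS (E1.mul_mem (E1.inv_mem he1) he2)⟩
      rw [hw]
      exact T.mul_mem (T.mul_mem (T.inv_mem ha) (T.inv_mem hdT)) hb
    have hfin : a⁻¹ * b = (d2 * d1⁻¹) * (s * (e1⁻¹ * e2) * s⁻¹) := by
      have hc := hT.comm a⁻¹ (T.inv_mem ha) (d2 * d1⁻¹)⁻¹ (T.inv_mem hdT)
      rw [hw, hc]; group
    rw [hfin]
    exact (D ⊔ (T ⊓ conjS s E1)).mul_mem
      ((le_sup_left : D ≤ D ⊔ (T ⊓ conjS s E1)) (D.mul_mem hd2 (D.inv_mem hd1)))
      ((le_sup_right : T ⊓ conjS s E1 ≤ D ⊔ (T ⊓ conjS s E1)) hwT)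
  have hcov1 : ∀ e ∈ E1, ∃ d ∈ D, ∃ v ∈ E1, e = d * (s * v * s⁻¹) := by
    intro e he
    obtain ⟨d, hd, w, hw, hdw⟩ := mem_sup_of_comm
      (fun x hx y hy => hT.comm x (hDT hx) y (inf_le_left (a := T) hy)) (hTW (hE1T he))
    refine ⟨d, hd, s⁻¹ * w * s, mem_conjS.1 hw.2, ?_⟩
    rw [hdw]; group
  have hdisj : ∀ x ∈ D, x ∈ E1 → x = 1 := by
    intro x hx hxE
    exact (hsep.conj_right g) x hx x hxE (IsConj.refl x)
  have hfinal := chain_lemma hT hE1 hDT hE1T hdisj s hcov1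
  apply hEK
  intro e he
  have hv : g * e * g⁻¹ ∈ E1 := conj_mem_conjS he
  have h1 := hfinal _ hv
  have h2 : s * (g * e * g⁻¹) * s⁻¹ ∈ conjS s T := conj_mem_conjS (hE1T hv)
  have h3 := hint _ h1 h2
  have h4 := hKn.conj_mem _ h3 (s * g)⁻¹
  have h5 : (s * g)⁻¹ * (s * (g * e * g⁻¹) * s⁻¹) * ((s * g)⁻¹)⁻¹ = e := by group
  rwa [h5] at h4

/-- the image of `T` in the quotient has the strict centralizer property -/
theorem cl_quotient {T N K : Subgroup G} [hKn : K.Normal]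
    (hT : IsTorus T) (hNf : N.FiniteIndex) (hKc : K = centralizer (N : Set G))
    (hcT : ClMod K T) : Cl (T.map (QuotientGroup.mk' K)) := by
  rintro _ ⟨t, ht, rfl⟩ hne P hP hc x hx
  have htK : t ∉ K := by
    intro h
    apply hne
    exact (QuotientGroup.eq_one_iff t).2 h
  have htN : t ∈ N := hT.le_of_finiteIndex hNf ht
  obtain ⟨k, hk⟩ := hT.tors t ht
  obtain ⟨nN, hnN, hnN'⟩ := exists_pow_mem_of_finiteIndex hNf
  obtain ⟨nT, hnT, hnT'⟩ := exists_pow_mem_of_relIndex (hcT t ht htK)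
  obtain ⟨y1, hy1, rfl⟩ := hP.div nT hnT x hx
  obtain ⟨y2, hy2, rfl⟩ := hP.div (2 ^ k) (by positivity) y1 hy1
  obtain ⟨y3, hy3, hy3'⟩ := hP.div nN hnN y2 hy2
  obtain ⟨g, rfl⟩ := QuotientGroup.mk'_surjective K y3
  have hy2' : y2 = QuotientGroup.mk' K (g ^ nN) := by rw [map_pow, hy3']
  set y : G := g ^ nN with hydef
  have hyN : y ∈ N := hnN' g
  have hcy := hc y2 hy2
  rw [hy2', ← map_mul, ← map_mul] at hcy
  have hcK : t⁻¹ * (y * t * y⁻¹) ∈ K := by
    rw [← QuotientGroup.eq_one_iff]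
    have h1 : (QuotientGroup.mk' K) (t⁻¹ * (y * t * y⁻¹)) =
        (QuotientGroup.mk' K t)⁻¹ * ((QuotientGroup.mk' K (y * t)) * (QuotientGroup.mk' K y)⁻¹) := by
      simp [mul_assoc]
    have h2 : ((t⁻¹ * (y * t * y⁻¹) : G) : G ⧸ K) = (QuotientGroup.mk' K) (t⁻¹ * (y * t * y⁻¹)) :=
      rfl
    rw [h2, h1, hcy, map_mul, mul_assoc, mul_inv_cancel, mul_one, inv_mul_cancel]
  set c : G := t⁻¹ * (y * t * y⁻¹) with hcdef
  have hyt : y * t * y⁻¹ = t * c := by rw [hcdef]; group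
  have hyc : y * c = c * y := by
    rw [hKc] at hcK
    exact (Subgroup.mem_centralizer_iff.1 hcK) y hyN
  have htc : t * c = c * t := by
    rw [hKc] at hcK
    exact (Subgroup.mem_centralizer_iff.1 hcK) t htN
  have hc2 : c ^ (2 ^ k) = 1 := by
    have h1 : (y * t * y⁻¹) ^ (2 ^ k) = 1 := by rw [conj_pow, hk]; group
    rw [hyt, Commute.mul_pow (show Commute t c from htc), hk, one_mul] at h1
    exact h1
  have hyn : ∀ n : ℕ, y ^ n * t * (y ^ n)⁻¹ = t * c ^ n := by
    intro n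
    induction n with
    | zero => simp
    | succ n ih =>
      have h1 : y * c ^ n = c ^ n * y := (show Commute y c from hyc).pow_right n
      calc y ^ (n + 1) * t * (y ^ (n + 1))⁻¹ = y * (y ^ n * t * (y ^ n)⁻¹) * y⁻¹ := by
            rw [pow_succ']; group
        _ = y * t * (c ^ n * y⁻¹) := by rw [ih]; group
        _ = y * t * (y⁻¹ * c ^ n) := by
            have h2 : c ^ n * y⁻¹ = y⁻¹ * c ^ n := by
              have h3 : Commute (c ^ n) y := h1.symm
              exact h3.inv_right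
            rw [h2]
        _ = (y * t * y⁻¹) * c ^ n := by group
        _ = t * c ^ (n + 1) := by rw [hyt, pow_succ']; group
  have hcent : y ^ (2 ^ k) ∈ centralizer {t} := by
    rw [mem_centralizer_singleton]
    have h1 := hyn (2 ^ k)
    rw [hc2, mul_one] at h1
    calc y ^ (2 ^ k) * t = (y ^ (2 ^ k) * t * (y ^ (2 ^ k))⁻¹) * y ^ (2 ^ k) := by group
      _ = t * y ^ (2 ^ k) := by rw [h1]
  refine ⟨(y ^ (2 ^ k)) ^ nT, hnT' _ hcent, ?_⟩
  rw [map_pow, map_pow, hy2']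

/-- the contradiction: no pair of noncentral tori -/
theorem no_pair {D E T T' N : Subgroup G} (hT : IsTorus T) (hT' : IsTorus T')
    (hE : IsTorus E) (hDT : D ≤ T) (hET : E ≤ T')
    (hDK : ¬ D ≤ centralizer (N : Set G))
    (hEK : ¬ E ≤ centralizer (N : Set G)) (hNf : N.FiniteIndex) (hNn : N.Normal)
    (hgen : ∀ M : Subgroup G, D ≤ M → (∀ g, conjS g E ≤ M) → N ≤ M) (hfd : FD D E)
    (hsep : Sep D E) (hcT : ClMod (centralizer (N : Set G)) T)
    (hcT' : ClMod (centralizer (N : Set G)) T') : False := by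
  obtain ⟨K, hKc⟩ : ∃ K : Subgroup G, K = centralizer (N : Set G) := ⟨_, rfl⟩
  have hKn : K.Normal := by rw [hKc]; infer_instance
  rw [← hKc] at hDK hEK hcT hcT'
  obtain ⟨π, hπ⟩ : ∃ π : G →* G ⧸ K, π = QuotientGroup.mk' K := ⟨_, rfl⟩
  have hsurj : Function.Surjective π := by rw [hπ]; exact QuotientGroup.mk'_surjective K
  have hone : ∀ x, π x = 1 ↔ x ∈ K := by
    intro x; rw [hπ]; exact QuotientGroup.eq_one_iff x
  have hne : ∀ X Y : Subgroup G, X ≤ Y → ¬ X ≤ K → Y.map π ≠ ⊥ := by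
    intro X Y hXY hX hbot
    apply hX
    intro x hx
    have h1 : π x ∈ Y.map π := ⟨x, hXY hx, rfl⟩
    rw [hbot, Subgroup.mem_bot] at h1
    exact (hone x).1 h1
  refine involution_lemma (T := T.map π) (T' := T'.map π) (hT.map π) (hT'.map π)
    (hne D T hDT hDK) (hne E T' hET hEK) (by rw [hπ]; exact cl_quotient hT hNf hKc hcT)
    (by rw [hπ]; exact cl_quotient hT' hNf hKc hcT') ?_ ?_
  · rintro _ ⟨t, ht, rfl⟩ _ ⟨t', ht', rfl⟩ hc
    rw [isConj_iff] at hc
    obtain ⟨c, hc⟩ := hc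
    obtain ⟨g, rfl⟩ := hsurj c
    have h1 : t⁻¹ * (g⁻¹ * t' * g) ∈ K := by
      rw [← hone, map_mul, map_mul, map_mul, map_inv, map_inv, ← hc]; group
    have h3 : g⁻¹ * t' * g ∈ conjS g⁻¹ T' := by
      have := conj_mem_conjS (g := g⁻¹) ht'
      rwa [inv_inv] at this
    have h4 := sep_mod hT hT' hE hDT hET hEK hNf hKn hKc hgen hfd hsep hcT hcT' ht h3 h1
    exact (hone t).2 h4
  · obtain ⟨S, hS, hcov⟩ := hfd
    refine ⟨π '' S, hS.image _, fun q => ?_⟩
    obtain ⟨g, rfl⟩ := hsurj q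
    obtain ⟨s, hs, d, hd, e, he, rfl⟩ := hcov g
    exact ⟨π s, ⟨s, hs, rfl⟩, π d, ⟨d, hDT hd, rfl⟩, π e, ⟨e, hET he, rfl⟩, by
      rw [map_mul, map_mul]⟩

end Pool.Agent.Cdeb98
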