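import Pool.Agent.Cdeb98.Reduction

set_option autoImplicit false

/-!
The number of elements of order at most two of a torus, and the existence of a torus of finite
index in an abelian 2-group with the descending chain condition.
-/

namespace Pool.Agent.Cdeb98

open Subgroup

universe u v

variable {G : Type u} [Group G]

/-- a commutative group of exponent two with the descending chain condition is finite -/
theorem finite_of_exponent_two {A : Type u} [CommGroup A] (h2 : ∀ x : A, x ^ 2 = 1)
    (hmin : WellFoundedLT (Subgroup A)) : Finite A := by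
  let _ : Module (ZMod 2) (Additive A) := AddCommGroup.zmodModule (n := 2) (by
    intro x
    exact h2 (Additive.toMul x))
  have hs : StrictMono (fun S : Submodule (ZMod 2) (Additive A) =>
      (AddSubgroup.toSubgroup' S.toAddSubgroup : Subgroup A)) := by
    intro S T hST
    rw [lt_iff_le_and_ne] at hST ⊢
    constructor
    · intro x hx
      exact hST.1 hx
    · intro h
      apply hST.2
      ext x
      have : (Additive.toMul x) ∈ (AddSubgroup.toSubgroup' S.toAddSubgroup : Subgroup A) ↔
          (Additive.toMul x) ∈ (AddSubgroup.toSubgroup' T.toAddSubgroup : Subgroup A) := by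
        have h' : (AddSubgroup.toSubgroup' S.toAddSubgroup : Subgroup A) =
          AddSubgroup.toSubgroup' T.toAddSubgroup := h
        rw [h']
      exact this
  have hart : IsArtinian (ZMod 2) (Additive A) := hs.wellFoundedLT
  have hfin : Module.Finite (ZMod 2) (Additive A) :=
    (IsSemisimpleModule.finite_tfae.out 0 2).mpr hart
  have : Finite (Additive A) := Module.finite_of_finite (ZMod 2)
  exact this

/-- the elements of order at most two of a torus -/
def socSet (D : Subgroup G) : Set G := {x | x ∈ D ∧ x ^ 2 = 1}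

theorem IsTorus.socSet_finite {D : Subgroup G} (hD : IsTorus D) : (socSet D).Finite := by
  let K : Subgroup G :=
    { carrier := {x | x ∈ D ∧ x ^ 2 = 1}
      one_mem' := ⟨D.one_mem, by simp⟩
      mul_mem' := by
        rintro x y ⟨hx, hx2⟩ ⟨hy, hy2⟩
        refine ⟨D.mul_mem hx hy, ?_⟩
        rw [Commute.mul_pow (show Commute x y from hD.comm x hx y hy), hx2, hy2, one_mul]
      inv_mem' := by
        rintro x ⟨hx, hx2⟩
        exact ⟨D.inv_mem hx, by rw [inv_pow, hx2, inv_one]⟩ }
  have hKD : K ≤ D := fun x hx => hx.1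
  let _ : CommGroup K :=
    { (inferInstance : Group K) with
      mul_comm := fun a b => Subtype.ext (hD.comm a (hKD a.2) b (hKD b.2)) }
  have hfin : Finite K := finite_of_exponent_two (A := K)
    (fun x => Subtype.ext x.2.2) (dcc_of_le hKD hD.min)
  exact hfin

/-- the number of elements of order at most two -/
noncomputable def soc (D : Subgroup G) : ℕ := (socSet D).ncard

theorem soc_mono {P D : Subgroup G} (hD : IsTorus D) (h : P ≤ D) : soc P ≤ soc D :=
  Set.ncard_le_ncard (fun _ hx => ⟨h hx.1, hx.2⟩) hD.socSet_finite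

theorem soc_lt {P D : Subgroup G} (hP : IsTorus P) (hD : IsTorus D) (h : P ≤ D)
    (hne : ¬ D ≤ P) : soc P < soc D := by
  by_contra hcon
  push Not at hcon
  have hsub : socSet P ⊆ socSet D := fun _ hx => ⟨h hx.1, hx.2⟩
  have heq : socSet P = socSet D := Set.eq_of_subset_of_ncard_le hsub hcon hD.socSet_finite
  apply hne
  have h1 : ∀ k : ℕ, ∀ x ∈ D, x ^ (2 ^ k) = 1 → x ∈ P := by
    intro k
    induction k with
    | zero =>
      intro x _ hx1
      have : x = 1 := by simpa using hx1
      rw [this]; exact P.one_mem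
    | succ k ih =>
      intro x hx hx1
      have h2 : x ^ 2 ∈ P := by
        refine ih _ (D.pow_mem hx 2) ?_
        rw [← pow_mul, ← pow_succ']
        exact hx1
      obtain ⟨y, hy, hyx⟩ := hP.div 2 (by norm_num) _ h2
      have h3 : x * y⁻¹ ∈ socSet P := by
        rw [heq]
        refine ⟨D.mul_mem hx (D.inv_mem (h hy)), ?_⟩
        rw [Commute.mul_pow (show Commute x y⁻¹ from hD.comm x hx _ (D.inv_mem (h hy))),
          inv_pow, hyx, mul_inv_cancel]
      have h4 := P.mul_mem h3.1 hy
      rwa [inv_mul_cancel_right] at h4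
  intro x hx
  obtain ⟨k, hk⟩ := hD.tors x hx
  exact h1 k x hx hk

theorem soc_le_of_injOn {H : Type v} [Group H] {D : Subgroup G} {E : Subgroup H}
    (hE : IsTorus E) (f : G → H)
    (hf : ∀ x ∈ socSet D, f x ∈ socSet E) (hinj : Set.InjOn f (socSet D)) : soc D ≤ soc E :=
  Set.ncard_le_ncard_of_injOn f hf hinj hE.socSet_finite

theorem soc_conjS {E : Subgroup G} (hE : IsTorus E) (g : G) : soc (conjS g E) ≤ soc E := by
  refine soc_le_of_injOn hE (fun x => g⁻¹ * x * g) ?_ ?_
  · rintro x ⟨hx, hx2⟩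
    refine ⟨mem_conjS.1 hx, ?_⟩
    have h1 : (g⁻¹ * x * g) ^ 2 = g⁻¹ * x ^ 2 * g := by
      rw [pow_two, pow_two]; group
    rw [h1, hx2]; group
  · intro x _ y _ hxy
    have hxy' : g⁻¹ * x * g = g⁻¹ * y * g := hxy
    have h1 := mul_right_cancel hxy'
    exact mul_left_cancel h1

theorem soc_subgroupOf {D : Subgroup G} (hD : IsTorus D) (C : Subgroup G) :
    soc (D.subgroupOf C) ≤ soc D := by
  refine soc_le_of_injOn hD (fun x => (x : G)) ?_ ?_
  · rintro x ⟨hx, hx2⟩
    refine ⟨hx, ?_⟩
    have := congrArg Subtype.val hx2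
    simpa using this
  · intro x _ y _ hxy
    exact Subtype.ext hxy

/-- 2-divisible 2-groups are divisible -/
theorem div_of_div_two {P : Subgroup G} (htors : ∀ x ∈ P, ∃ k : ℕ, x ^ (2 ^ k) = 1)
    (h2 : ∀ x ∈ P, ∃ y ∈ P, y ^ 2 = x) : ∀ n : ℕ, 0 < n → ∀ x ∈ P, ∃ y ∈ P, y ^ n = x := by
  have h2a : ∀ a : ℕ, ∀ x ∈ P, ∃ y ∈ P, y ^ (2 ^ a) = x := by
    intro a
    induction a with
    | zero => intro x hx; exact ⟨x, hx, by simp⟩
    | succ a ih =>
      intro x hx
      obtain ⟨y, hy, hyx⟩ := ih x hx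
      obtain ⟨z, hz, hzy⟩ := h2 y hy
      exact ⟨z, hz, by rw [pow_succ', pow_mul, hzy, hyx]⟩
  intro n hn x hx
  obtain ⟨a, m, hm, rfl⟩ := Nat.exists_eq_two_pow_mul_odd hn.ne'
  obtain ⟨k, hk⟩ := htors x hx
  have hcop : m.Coprime (orderOf x) := by
    refine Nat.Coprime.coprime_dvd_right (orderOf_dvd_of_pow_eq_one hk) ?_
    exact Nat.Coprime.pow_right _ (Nat.Coprime.symm (Nat.coprime_two_left.2 hm))
  obtain ⟨u, hu⟩ := exists_pow_eq_self_of_coprime hcop
  obtain ⟨y, hy, hyx⟩ := h2a a (x ^ u) (P.pow_mem hx u)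
  refine ⟨y, hy, ?_⟩
  rw [pow_mul, hyx, ← pow_mul, mul_comm, pow_mul, hu]

/-- in a commutative group, a non-square lies outside some subgroup of finite index -/
theorem exists_finiteIndex_of_not_square {A : Type u} [CommGroup A] {x : A}
    (hx : ∀ y : A, y ^ 2 ≠ x) : ∃ M : Subgroup A, M.FiniteIndex ∧ x ∉ M := by
  let sq : Subgroup A := (powMonoidHom 2 : A →* A).range
  let _ : Module (ZMod 2) (Additive (A ⧸ sq)) := AddCommGroup.zmodModule (n := 2) (by
    intro q
    obtain ⟨a, ha⟩ := QuotientGroup.mk'_surjective sq (Additive.toMul q)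
    have h1 : (Additive.toMul q) ^ 2 = 1 := by
      rw [← ha, ← map_pow]
      exact (QuotientGroup.eq_one_iff _).2 ⟨a, rfl⟩
    exact h1)
  have hxne : (Additive.ofMul (QuotientGroup.mk' sq x) : Additive (A ⧸ sq)) ≠ 0 := by
    intro h
    have h1 : (QuotientGroup.mk' sq x) = 1 := h
    have h2 : x ∈ sq := (QuotientGroup.eq_one_iff x).1 h1
    obtain ⟨y, hy⟩ := h2
    exact hx y hy
  obtain ⟨f, hf⟩ := Module.Projective.exists_dual_ne_zero (ZMod 2) hxne
  let F : A →* Multiplicative (ZMod 2) :=
    { toFun := fun a => Multiplicative.ofAdd (f (Additive.ofMul (QuotientGroup.mk' sq a)))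
      map_one' := by
        have h1 : f (Additive.ofMul (QuotientGroup.mk' sq 1)) = 0 := by
          rw [map_one]; exact map_zero f
        exact congrArg Multiplicative.ofAdd h1
      map_mul' := fun a b => by
        have h1 : f (Additive.ofMul (QuotientGroup.mk' sq (a * b))) =
            f (Additive.ofMul (QuotientGroup.mk' sq a)) +
              f (Additive.ofMul (QuotientGroup.mk' sq b)) := by
          rw [map_mul, ofMul_mul, map_add]
        exact congrArg Multiplicative.ofAdd h1 }
  refine ⟨F.ker, ?_, ?_⟩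
  · have : Finite (Multiplicative (ZMod 2)) := inferInstanceAs (Finite (ZMod 2))
    have : Finite F.range := Subtype.finite
    exact Subgroup.finiteIndex_ker F
  · intro h
    apply hf
    exact h

/-- an abelian 2-group with the descending chain condition has a torus of finite index -/
theorem exists_torus {Q : Subgroup G} (hcomm : ∀ x ∈ Q, ∀ y ∈ Q, x * y = y * x)
    (htors : ∀ x ∈ Q, ∃ k : ℕ, x ^ (2 ^ k) = 1) (hmin : WellFoundedLT (Subgroup Q)) :
    ∃ P : Subgroup G, P ≤ Q ∧ IsTorus P ∧ P.relIndex Q ≠ 0 := by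
  obtain ⟨H0, hH0, hmin0⟩ : ∃ H0 : Subgroup Q, H0.index ≠ 0 ∧
      ∀ H : Subgroup Q, H.index ≠ 0 → ¬ H < H0 := by
    have hne : ({H : Subgroup Q | H.index ≠ 0} : Set (Subgroup Q)).Nonempty :=
      ⟨⊤, by simp⟩
    exact ⟨hmin.wf.min _ hne, hmin.wf.min_mem _ hne, fun H hH => hmin.wf.not_lt_min _ hH⟩
  set P : Subgroup G := H0.map Q.subtype with hPdef
  have hPQ : P ≤ Q := by
    rintro _ ⟨x, _, rfl⟩
    exact x.2
  have hPsub : P.subgroupOf Q = H0 := by
    rw [hPdef, Subgroup.subgroupOf, Subgroup.comap_map_eq_self_of_injective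
      (Subgroup.subtype_injective Q)]
  have hPi : P.relIndex Q ≠ 0 := by
    rw [Subgroup.relIndex, hPsub]; exact hH0
  have hnoprop : ∀ H : Subgroup G, H ≤ P → H.relIndex P ≠ 0 → P ≤ H := by
    intro H hHP hHi
    have h1 : H.relIndex Q ≠ 0 := Subgroup.relIndex_ne_zero_trans hHi hPi
    have h2 := hmin0 (H.subgroupOf Q) h1
    have h3 : H.subgroupOf Q ≤ H0 := by
      rw [← hPsub]
      intro x hx
      exact hHP hx
    have h4 : H.subgroupOf Q = H0 := by
      by_contra hne
      exact h2 (lt_of_le_of_ne h3 hne)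
    intro x hx
    have h5 : (⟨x, hPQ hx⟩ : Q) ∈ H0 := by
      rw [← hPsub]; exact hx
    rw [← h4] at h5
    exact h5
  have hPcomm : ∀ x ∈ P, ∀ y ∈ P, x * y = y * x := fun x hx y hy =>
    hcomm x (hPQ hx) y (hPQ hy)
  have hPtors : ∀ x ∈ P, ∃ k : ℕ, x ^ (2 ^ k) = 1 := fun x hx => htors x (hPQ hx)
  have hP2 : ∀ x ∈ P, ∃ y ∈ P, y ^ 2 = x := by
    intro x hx
    by_contra hcon
    push Not at hcon
    let _ : CommGroup P :=
      { (inferInstance : Group P) with
        mul_comm := fun a b => Subtype.ext (hPcomm a a.2 b b.2) }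
    obtain ⟨M, hM, hxM⟩ := exists_finiteIndex_of_not_square (A := P) (x := ⟨x, hx⟩) (by
      rintro ⟨y, hy⟩ hyx
      exact hcon y hy (congrArg Subtype.val hyx))
    have hMi : (M.map P.subtype).relIndex P ≠ 0 := by
      have : (M.map P.subtype).subgroupOf P = M := by
        rw [Subgroup.subgroupOf, Subgroup.comap_map_eq_self_of_injective
          (Subgroup.subtype_injective P)]
      rw [Subgroup.relIndex, this]
      exact hM.index_ne_zero
    have hMP : M.map P.subtype ≤ P := by
      rintro _ ⟨y, _, rfl⟩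
      exact y.2
    obtain ⟨y, hy, hyx⟩ := hnoprop _ hMP hMi hx
    apply hxM
    have : y = ⟨x, hx⟩ := Subtype.ext hyx
    rw [← this]; exact hy
  exact ⟨P, hPQ, ⟨hPcomm, hPtors, div_of_div_two hPtors hP2, dcc_of_le hPQ hmin⟩, hPi⟩

end Pool.Agent.Cdeb98
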