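import Mathlib

set_option autoImplicit false

/-!
Divisible abelian 2-groups with the descending chain condition on subgroups (called tori here),
as subgroups of an ambient group.
-/

namespace Pool.Agent.Cdeb98

open Subgroup

universe u v

variable {G : Type u} [Group G] {H : Type v} [Group H]

/-- A subgroup that is abelian, a 2-group, divisible, and has the descending chain condition
on subgroups. -/
structure IsTorus (D : Subgroup G) : Prop where
  comm : ∀ x ∈ D, ∀ y ∈ D, x * y = y * x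
  tors : ∀ x ∈ D, ∃ k : ℕ, x ^ (2 ^ k) = 1
  div : ∀ n : ℕ, 0 < n → ∀ x ∈ D, ∃ y ∈ D, y ^ n = x
  min : WellFoundedLT (Subgroup D)

/-- The conjugate `g D g⁻¹`. -/
def conjS (g : G) (D : Subgroup G) : Subgroup G := D.map (MulAut.conj g).toMonoidHom

theorem mem_conjS {g x : G} {D : Subgroup G} : x ∈ conjS g D ↔ g⁻¹ * x * g ∈ D := by
  unfold conjS
  constructor
  · rintro ⟨d, hd, rfl⟩
    have : g⁻¹ * ((MulAut.conj g).toMonoidHom d) * g = d := by
      simp [MulAut.conj_apply, mul_assoc]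
    rw [this]; exact hd
  · intro h
    refine ⟨g⁻¹ * x * g, h, ?_⟩
    simp [MulAut.conj_apply, mul_assoc]

theorem conj_mem_conjS {g x : G} {D : Subgroup G} (hx : x ∈ D) : g * x * g⁻¹ ∈ conjS g D := by
  rw [mem_conjS]
  have : g⁻¹ * (g * x * g⁻¹) * g = x := by group
  rw [this]; exact hx

theorem conjS_mul (g h : G) (D : Subgroup G) : conjS (g * h) D = conjS g (conjS h D) := by
  ext x
  simp only [mem_conjS]
  have : (g * h)⁻¹ * x * (g * h) = h⁻¹ * (g⁻¹ * x * g) * h := by group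
  rw [this]

theorem conjS_one (D : Subgroup G) : conjS 1 D = D := by
  ext x
  simp [mem_conjS]

theorem conjS_mono {g : G} {D E : Subgroup G} (h : D ≤ E) : conjS g D ≤ conjS g E :=
  fun x hx => by
    rw [mem_conjS] at hx ⊢
    exact h hx

theorem conjS_sup (g : G) (D E : Subgroup G) : conjS g (D ⊔ E) = conjS g D ⊔ conjS g E :=
  Subgroup.map_sup _ _ _

theorem conjS_finiteIndex (g : G) (D : Subgroup G) (h : D.FiniteIndex) :
    (conjS g D).FiniteIndex := by
  constructor
  intro h0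
  apply h.index_ne_zero
  have : (conjS g D).index = D.index := by
    unfold conjS
    exact Subgroup.index_map_equiv D (MulAut.conj g)
  rw [← this, h0]

/-! ### descending chain condition -/

theorem dcc_of_le {P D : Subgroup G} (h : P ≤ D) (hD : WellFoundedLT (Subgroup D)) :
    WellFoundedLT (Subgroup P) := by
  have hf : StrictMono (fun K : Subgroup P => K.map (Subgroup.inclusion h)) := by
    intro K L hKL
    have := Subgroup.map_lt_map_iff_of_injective (f := Subgroup.inclusion h)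
      (Subgroup.inclusion_injective h) (H := K) (K := L)
    exact this.2 hKL
  exact hf.wellFoundedLT

theorem dcc_of_surjective {A : Type u} [Group A] {B : Type v} [Group B] (f : A →* B)
    (hf : Function.Surjective f) (hA : WellFoundedLT (Subgroup A)) :
    WellFoundedLT (Subgroup B) := by
  have hs : StrictMono (fun K : Subgroup B => K.comap f) := by
    intro K L hKL
    exact (Subgroup.comap_lt_comap_of_surjective hf).2 hKL
  exact hs.wellFoundedLT

theorem dcc_prod {A : Type u} [Group A] {B : Type v} [Group B]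
    (hA : WellFoundedLT (Subgroup A)) (hB : WellFoundedLT (Subgroup B)) :
    WellFoundedLT (Subgroup (A × B)) := by
  have hs : StrictMono (fun K : Subgroup (A × B) =>
      ((K.comap (MonoidHom.inl A B), K.map (MonoidHom.snd A B)) : Subgroup A × Subgroup B)) := by
    intro K L hKL
    rw [Prod.lt_iff]
    have h1 : K.comap (MonoidHom.inl A B) ≤ L.comap (MonoidHom.inl A B) :=
      Subgroup.comap_mono hKL.le
    have h2 : K.map (MonoidHom.snd A B) ≤ L.map (MonoidHom.snd A B) :=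
      Subgroup.map_mono hKL.le
    by_cases hc1 : K.comap (MonoidHom.inl A B) = L.comap (MonoidHom.inl A B)
    · by_cases hc2 : K.map (MonoidHom.snd A B) = L.map (MonoidHom.snd A B)
      · exfalso
        apply hKL.not_ge
        rintro ⟨a, b⟩ hab
        have hb : b ∈ L.map (MonoidHom.snd A B) := ⟨(a, b), hab, rfl⟩
        rw [← hc2] at hb
        obtain ⟨⟨a', b'⟩, hab', hbb⟩ := hb
        have hbb' : b' = b := hbb
        subst hbb'
        have h3 : (a * a'⁻¹, (1 : B)) ∈ L := by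
          have := L.mul_mem hab (L.inv_mem (hKL.le hab'))
          simpa using this
        have h4 : a * a'⁻¹ ∈ L.comap (MonoidHom.inl A B) := h3
        rw [← hc1] at h4
        have h5 : (a * a'⁻¹, (1 : B)) ∈ K := h4
        have := K.mul_mem h5 hab'
        simpa using this
      · right
        exact ⟨h1, lt_of_le_of_ne h2 hc2⟩
    · left
      exact ⟨lt_of_le_of_ne h1 hc1, h2⟩
  exact hs.wellFoundedLT

/-! ### basic constructions -/

theorem IsTorus.map {D : Subgroup G} (hD : IsTorus D) (f : G →* H) : IsTorus (D.map f) where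
  comm := by
    rintro _ ⟨x, hx, rfl⟩ _ ⟨y, hy, rfl⟩
    rw [← map_mul, ← map_mul, hD.comm x hx y hy]
  tors := by
    rintro _ ⟨x, hx, rfl⟩
    obtain ⟨k, hk⟩ := hD.tors x hx
    exact ⟨k, by rw [← map_pow, hk, map_one]⟩
  div := by
    rintro n hn _ ⟨x, hx, rfl⟩
    obtain ⟨y, hy, hyx⟩ := hD.div n hn x hx
    exact ⟨f y, ⟨y, hy, rfl⟩, by rw [← map_pow, hyx]⟩
  min := dcc_of_surjective (f.subgroupMap D) (f.subgroupMap_surjective D) hD.min

theorem IsTorus.conj {D : Subgroup G} (hD : IsTorus D) (g : G) : IsTorus (conjS g D) :=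
  hD.map _

theorem IsTorus.top {D : Subgroup G} (hD : IsTorus D) : IsTorus (⊤ : Subgroup D) where
  comm := by
    rintro ⟨x, hx⟩ - ⟨y, hy⟩ -
    exact Subtype.ext (hD.comm x hx y hy)
  tors := by
    rintro ⟨x, hx⟩ -
    obtain ⟨k, hk⟩ := hD.tors x hx
    exact ⟨k, Subtype.ext (by simpa using hk)⟩
  div := by
    rintro n hn ⟨x, hx⟩ -
    obtain ⟨y, hy, hyx⟩ := hD.div n hn x hx
    exact ⟨⟨y, hy⟩, trivial, Subtype.ext (by simpa using hyx)⟩
  min := dcc_of_surjective (Subgroup.topEquiv (G := D)).symm.toMonoidHom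
    (Subgroup.topEquiv (G := D)).symm.surjective hD.min

theorem IsTorus.range {D : Subgroup G} (hD : IsTorus D) (f : D →* H) : IsTorus f.range := by
  have := hD.top.map f
  rwa [← MonoidHom.range_eq_map] at this

/-- a torus contained in `C`, as a subgroup of `C` -/
theorem IsTorus.subgroupOf {D : Subgroup G} (hD : IsTorus D) {C : Subgroup G} (h : D ≤ C) :
    IsTorus (D.subgroupOf C) := by
  have h1 := hD.range (Subgroup.inclusion h)
  have h2 : (Subgroup.inclusion h).range = D.subgroupOf C := by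
    ext ⟨x, hx⟩
    constructor
    · rintro ⟨⟨y, hy⟩, hyx⟩
      have : y = x := congrArg Subtype.val hyx
      subst this
      exact hy
    · intro hx'
      exact ⟨⟨x, hx'⟩, rfl⟩
  rwa [h2] at h1

/-- finite relative index gives a uniform exponent -/
theorem exists_pow_mem_of_relIndex {K C : Subgroup G} (h : K.relIndex C ≠ 0) :
    ∃ n : ℕ, 0 < n ∧ ∀ x ∈ C, x ^ n ∈ K := by
  refine ⟨(K.relIndex C).factorial, Nat.factorial_pos _, fun x hx => ?_⟩
  have := Subgroup.pow_mem_of_relIndex_ne_zero_of_dvd h hx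
    (n := (K.relIndex C).factorial) (fun m hm hm' => Nat.dvd_factorial hm hm')
  exact this.1

theorem IsTorus.le_of_relIndex {P : Subgroup G} (hP : IsTorus P) {K C : Subgroup G}
    (hPC : P ≤ C) (h : K.relIndex C ≠ 0) : P ≤ K := by
  obtain ⟨n, hn, hn'⟩ := exists_pow_mem_of_relIndex h
  intro x hx
  obtain ⟨y, hy, rfl⟩ := hP.div n hn x hx
  exact hn' y (hPC hy)

theorem exists_pow_mem_of_finiteIndex {K : Subgroup G} (h : K.FiniteIndex) :
    ∃ n : ℕ, 0 < n ∧ ∀ x : G, x ^ n ∈ K := by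
  have h' : K.relIndex ⊤ ≠ 0 := by
    rw [Subgroup.relIndex_top_right]
    exact h.index_ne_zero
  obtain ⟨n, hn, hn'⟩ := exists_pow_mem_of_relIndex h'
  exact ⟨n, hn, fun x => hn' x trivial⟩

theorem IsTorus.le_of_finiteIndex {P : Subgroup G} (hP : IsTorus P) {K : Subgroup G}
    (h : K.FiniteIndex) : P ≤ K := by
  obtain ⟨n, hn, hn'⟩ := exists_pow_mem_of_finiteIndex h
  intro x hx
  obtain ⟨y, hy, rfl⟩ := hP.div n hn x hx
  exact hn' y

/-- membership in the join of two commuting subgroups -/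
theorem mem_sup_of_comm {P Q : Subgroup G} (hc : ∀ x ∈ P, ∀ y ∈ Q, x * y = y * x) {x : G}
    (hx : x ∈ P ⊔ Q) : ∃ p ∈ P, ∃ q ∈ Q, x = p * q := by
  let R : Subgroup G :=
    { carrier := {x | ∃ p ∈ P, ∃ q ∈ Q, x = p * q}
      one_mem' := ⟨1, P.one_mem, 1, Q.one_mem, by simp⟩
      mul_mem' := by
        rintro _ _ ⟨p, hp, q, hq, rfl⟩ ⟨p', hp', q', hq', rfl⟩
        refine ⟨p * p', P.mul_mem hp hp', q * q', Q.mul_mem hq hq', ?_⟩
        have := hc p' hp' q hq
        calc p * q * (p' * q') = p * (q * p') * q' := by group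
          _ = p * (p' * q) * q' := by rw [this]
          _ = p * p' * (q * q') := by group
      inv_mem' := by
        rintro _ ⟨p, hp, q, hq, rfl⟩
        refine ⟨p⁻¹, P.inv_mem hp, q⁻¹, Q.inv_mem hq, ?_⟩
        have := hc p⁻¹ (P.inv_mem hp) q⁻¹ (Q.inv_mem hq)
        rw [this]; group }
  have hP : P ≤ R := fun p hp => ⟨p, hp, 1, Q.one_mem, by simp⟩
  have hQ : Q ≤ R := fun q hq => ⟨1, P.one_mem, q, hq, by simp⟩
  exact (sup_le hP hQ) hx

theorem IsTorus.sup {P Q : Subgroup G} (hP : IsTorus P) (hQ : IsTorus Q)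
    (hc : ∀ x ∈ P, ∀ y ∈ Q, x * y = y * x) : IsTorus (P ⊔ Q) := by
  let f : P × Q →* G :=
    { toFun := fun z => (z.1 : G) * (z.2 : G)
      map_one' := by simp
      map_mul' := by
        rintro ⟨⟨p, hp⟩, ⟨q, hq⟩⟩ ⟨⟨p', hp'⟩, ⟨q', hq'⟩⟩
        have := hc p' hp' q hq
        simp only [Prod.mk_mul_mk, MulMemClass.mk_mul_mk]
        calc p * p' * (q * q') = p * (p' * q) * q' := by group
          _ = p * (q * p') * q' := by rw [this]
          _ = p * q * (p' * q') := by group }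
  have hf : f.range = P ⊔ Q := by
    apply le_antisymm
    · rintro _ ⟨⟨⟨p, hp⟩, ⟨q, hq⟩⟩, rfl⟩
      exact (P ⊔ Q).mul_mem ((le_sup_left : P ≤ P ⊔ Q) hp) ((le_sup_right : Q ≤ P ⊔ Q) hq)
    · intro x hx
      obtain ⟨p, hp, q, hq, rfl⟩ := mem_sup_of_comm hc hx
      exact ⟨(⟨p, hp⟩, ⟨q, hq⟩), rfl⟩
  rw [← hf]
  refine ⟨?_, ?_, ?_, ?_⟩
  · rintro _ ⟨⟨⟨p, hp⟩, ⟨q, hq⟩⟩, rfl⟩ _ ⟨⟨⟨p', hp'⟩, ⟨q', hq'⟩⟩, rfl⟩
    rw [← map_mul, ← map_mul]
    congr 1
    simp only [Prod.mk_mul_mk, MulMemClass.mk_mul_mk, Prod.mk.injEq, Subtype.mk.injEq]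
    exact ⟨hP.comm p hp p' hp', hQ.comm q hq q' hq'⟩
  · rintro _ ⟨⟨⟨p, hp⟩, ⟨q, hq⟩⟩, rfl⟩
    obtain ⟨k, hk⟩ := hP.tors p hp
    obtain ⟨l, hl⟩ := hQ.tors q hq
    refine ⟨k + l, ?_⟩
    rw [← map_pow]
    have : ((⟨p, hp⟩, ⟨q, hq⟩) : P × Q) ^ (2 ^ (k + l)) = 1 := by
      rw [Prod.ext_iff]
      constructor
      · apply Subtype.ext
        simp only [Prod.pow_fst, SubmonoidClass.mk_pow, Prod.fst_one, OneMemClass.coe_one]
        rw [pow_add, pow_mul, hk, one_pow]
      · apply Subtype.ext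
        simp only [Prod.pow_snd, SubmonoidClass.mk_pow, Prod.snd_one, OneMemClass.coe_one]
        rw [pow_add, mul_comm, pow_mul, hl, one_pow]
    rw [this, map_one]
  · rintro n hn _ ⟨⟨⟨p, hp⟩, ⟨q, hq⟩⟩, rfl⟩
    obtain ⟨p', hp', rfl⟩ := hP.div n hn p hp
    obtain ⟨q', hq', rfl⟩ := hQ.div n hn q hq
    refine ⟨f (⟨p', hp'⟩, ⟨q', hq'⟩), ⟨_, rfl⟩, ?_⟩
    rw [← map_pow]
    rfl
  · exact dcc_of_surjective f.rangeRestrict f.rangeRestrict_surjective (dcc_prod hP.min hQ.min)

/-- a descending sequence of subgroups of a torus has two equal consecutive terms -/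
theorem IsTorus.chain {D : Subgroup G} (hD : IsTorus D) (V : ℕ → Subgroup G)
    (hV : ∀ n, V n ≤ D) (hanti : ∀ n, V (n + 1) ≤ V n) : ∃ n, V (n + 1) = V n := by
  by_contra hcon
  push Not at hcon
  have hlt : ∀ n, (V (n + 1)).subgroupOf D < (V n).subgroupOf D := by
    intro n
    refine lt_of_le_of_ne ?_ ?_
    · intro x hx
      exact hanti n hx
    · intro h
      apply hcon n
      have := Subgroup.subgroupOf_inj.1 h
      rwa [inf_of_le_left (hV _), inf_of_le_left (hV _)] at this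
  have hwf := hD.min.wf
  exact (RelEmbedding.natGT (r := fun a b : Subgroup D => a < b)
    (fun n => (V n).subgroupOf D) hlt).not_wellFounded hwf

end Pool.Agent.Cdeb98
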